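import Pool.Agent.VB.G

/-!
# VLIN, module RT: limits of tuples
-/

set_option autoImplicit false
set_option linter.unusedSectionVars false
set_option linter.unusedVariables false

namespace Pool.Agent.Helper97.LO

open Set Pool.Agent.Helper5 Pool.Agent.Helper5.DU Pool.Agent.Helper6.Str
  Pool.Agent.Helper79.VC Pool.Agent.Helper97.VC Pool.Agent.Helper97.MD Pool.Agent.Helper6.VC

variable {L : FirstOrder.Language.{0, 0}} {M N P : Type} {A Γ : Type}

section VS

variable [∀ n, IsEmpty (L.Functions n)] [∀ n, Countable (L.Relations n)]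
  {K : Set (L.Structure ℕ)} {δ : Ordinal.{0}} {S : L.Structure M} {τ : M → M → A} {rv : A → A}
  {c : M → Γ} {m : Γ → Γ → A}

/-- the recursion of length omega one, from a given start -/
private theorem exists_good_from {K : Set (L.Structure ℕ)}
    (hK : MeasurableSet {c : Code L | toStr c ∈ K})
    (hS : Scat K) (g : Om → Finset Om × Om × ℕ) (r : Finset Om → Om → ℕ → PM L Om × ℕ)
    {b : Ordinal.{0} → Set (PM L Om)} {A0 : Set Om} {T0 : TA L}
    (h0 : Pool.Agent.Helper79.VC.Good K g r b A0 T0) :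
    ∃ T : TA L, Pool.Agent.Helper79.VC.Good K g r b univ T ∧
      ∀ F : Finset Om, (F : Set Om) ⊆ A0 → ∀ γ < om1, T F γ = T0 F γ := by
  let α := {q : Set Om × TA L // Pool.Agent.Helper79.VC.Good K g r b q.1 q.2 ∧ A0 ⊆ q.1 ∧
    ∀ F : Finset Om, (F : Set Om) ⊆ A0 → ∀ γ < om1, q.2 F γ = T0 F γ}
  let R : α → α → Prop := fun q q' => q.1.1 ⊆ q'.1.1 ∧
    ∀ F : Finset Om, (F : Set Om) ⊆ q.1.1 → ∀ γ < om1, q'.1.2 F γ = q.1.2 F γ
  have hchain : ∀ c : Set α, IsChain R c → ∃ ub, ∀ a ∈ c, R a ub := by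
    intro c hc
    rcases c.eq_empty_or_nonempty with hem | ⟨q₀, hq₀⟩
    · exact ⟨⟨(A0, T0), h0, Subset.rfl, fun _ _ _ _ => rfl⟩,
        fun a ha => absurd ha (by rw [hem]; exact notMem_empty a)⟩
    let A : Set Om := ⋃ q ∈ c, q.1.1
    let T : TA L := fun F γ => {z | ∃ q ∈ c, (F : Set Om) ⊆ q.1.1 ∧ z ∈ q.1.2 F γ}
    have hdir : ∀ q ∈ c, ∀ q' ∈ c, R q q' ∨ R q' q := by
      intro q hq q' hq'
      by_cases h : q = q'
      · subst h
        exact Or.inl ⟨Subset.rfl, fun _ _ _ _ => rfl⟩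
      · exact hc hq hq' h
    have hT : ∀ q ∈ c, ∀ F : Finset Om, (F : Set Om) ⊆ q.1.1 → ∀ γ < om1, T F γ = q.1.2 F γ := by
      intro q hq F hF γ hγ
      ext z
      constructor
      · rintro ⟨q', hq', hF', hz⟩
        rcases hdir q hq q' hq' with h | h
        · rwa [h.2 F hF γ hγ] at hz
        · rwa [← h.2 F hF' γ hγ] at hz
      · intro hz
        exact ⟨q, hq, hF, hz⟩
    have hfin : ∀ F : Finset Om, (F : Set Om) ⊆ A → ∃ q ∈ c, (F : Set Om) ⊆ q.1.1 := by
      intro F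
      induction F using Finset.induction_on with
      | empty => exact fun _ => ⟨q₀, hq₀, by simp⟩
      | insert e F he ih =>
        intro hF
        obtain ⟨q, hq, hFq⟩ := ih fun x hx => hF (Finset.mem_coe.mpr (Finset.mem_insert_of_mem hx))
        have : e ∈ A := hF (Finset.mem_coe.mpr (Finset.mem_insert_self e F))
        obtain ⟨q', hq', heq'⟩ := mem_iUnion₂.mp this
        rcases hdir q hq q' hq' with h | h
        · refine ⟨q', hq', ?_⟩
          intro x hx
          rcases Finset.mem_insert.mp (Finset.mem_coe.mp hx) with rfl | hx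
          · exact heq'
          · exact h.1 (hFq hx)
        · refine ⟨q, hq, ?_⟩
          intro x hx
          rcases Finset.mem_insert.mp (Finset.mem_coe.mp hx) with rfl | hx
          · exact h.1 heq'
          · exact hFq hx
    have hub : Pool.Agent.Helper79.VC.Good K g r b A T ∧ A0 ⊆ A ∧
        ∀ F : Finset Om, (F : Set Om) ⊆ A0 → ∀ γ < om1, T F γ = T0 F γ := by
      refine ⟨⟨?_, ⟨fun F hF γ hγ => ?_, fun F F' hFF hF' β γ hβ hγ => ?_⟩,
        fun γ hγ => ?_, fun e he => ?_⟩, ?_, fun F hF γ hγ => ?_⟩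
      · intro x y hxy hx
        obtain ⟨q, hq, hxq⟩ := mem_iUnion₂.mp hx
        exact mem_iUnion₂.mpr ⟨q, hq, q.2.1.low hxy hxq⟩
      · obtain ⟨q, hq, hFq⟩ := hfin F hF
        rw [hT q hq F hFq γ hγ]
        exact q.2.1.asg.cls F hFq γ hγ
      · obtain ⟨q, hq, hFq⟩ := hfin F' hF'
        have hFq' : (F : Set Om) ⊆ q.1.1 := fun x hx => hFq (hFF hx)
        rw [hT q hq F' hFq γ hγ, hT q hq F hFq' β (hβ.trans_lt hγ)]
        exact q.2.1.asg.anti F F' hFF hFq β γ hβ hγ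
      · rw [hT q₀ hq₀ ∅ (by simp) γ hγ]
        exact q₀.2.1.zero γ hγ
      · obtain ⟨q, hq, heq⟩ := mem_iUnion₂.mp he
        refine (q.2.1.req e heq).congr fun F hF γ hγ => hT q hq F ?_ γ hγ
        exact fun x hx => q.2.1.low (hF x hx) heq
      · exact fun x hx => mem_iUnion₂.mpr ⟨q₀, hq₀, q₀.2.2.1 hx⟩
      · rw [hT q₀ hq₀ F (hF.trans q₀.2.2.1) γ hγ]
        exact q₀.2.2.2 F hF γ hγ
    exact ⟨⟨(A, T), hub⟩, fun a ha => ⟨fun x hx => mem_iUnion₂.mpr ⟨a, ha, hx⟩,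
      fun F hF γ hγ => hT a ha F hF γ hγ⟩⟩
  obtain ⟨⟨⟨A, T⟩, hq⟩, hmax⟩ := exists_maximal_of_chains_bounded hchain
    (fun {a b c} h1 h2 => ⟨h1.1.trans h2.1, fun F hF γ hγ =>
      (h2.2 F (hF.trans h1.1) γ hγ).trans (h1.2 F hF γ hγ)⟩)
  by_cases hA : A = univ
  · subst hA
    exact ⟨T, hq.1, hq.2.2⟩
  · obtain ⟨A', T', hq', hAA', hnot, hTT'⟩ := good_step hK hS hq.1 hA
    refine absurd (hmax ⟨(A', T'), hq', hq.2.1.trans hAA', fun F hF γ hγ => ?_⟩
      ⟨hAA', hTT'⟩).1 hnot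
    exact (hTT' F (hF.trans hq.2.1) γ hγ).trans (hq.2.2 F hF γ hγ)

theorem VSt.limit (hS : VSt K δ S) {n : ℕ} (a : Om → Fin n → M) :
    ∃ (N : Type) (T : L.Structure N) (b : Fin n → N) (V : Set Om), ¬ V.Countable ∧
      VSt K δ T ∧ ∀ γ < om1, ∃ C : Set Om, C.Countable ∧ ∀ r ∈ V, r ∉ C →
        BFR T S univ univ γ (range fun i => (b i, a r i)) := by
  classical
  -- members of `K` near the tuples
  have h1 : ∀ w : Om, ∃ x : PM L (Fin n), x.1 ∈ K ∧
      BFR S x.1 univ univ (od w) (range fun i => (a w i, x.2 i)) := by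
    intro w
    obtain ⟨S', hS', h⟩ := hS.lev (od w + n) (add_lt_om1 (od_lt w) (natCast_lt_om1 n))
    obtain ⟨y, -, hy⟩ := BFR.forth_many n h (a w) (fun _ => mem_univ _)
    exact ⟨(S', y), hS', BFR.anti subset_union_right hy⟩
  choose x hxK hx using h1
  obtain ⟨V, -, hV, b, hb, hbV⟩ := exists_ft hS.meas hS.scat (Finset.univ : Finset (Fin n)) x hxK
    univ not_countable_om
  -- the first `n` variables
  let A0 : Set Om := {c | od c < n}
  have hA0c : A0.Countable := countable_od_lt (natCast_lt_om1 n)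
  have he : ∀ i : Fin n, ∃ c : Om, od c = ((i : ℕ) : Ordinal.{0}) := fun i =>
    od_surj (natCast_lt_om1 i)
  choose e he using he
  have heinj : Function.Injective e := by
    intro i j hij
    have h2 : ((i : ℕ) : Ordinal.{0}) = ((j : ℕ) : Ordinal.{0}) := by
      rw [← he i, ← he j, hij]
    exact Fin.ext (by exact_mod_cast h2)
  have heA : ∀ i, e i ∈ A0 := by
    intro i
    show od (e i) < n
    rw [he i]
    exact_mod_cast i.2
  have hAe : ∀ c ∈ A0, ∃ i, e i = c := by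
    intro c hc
    have h2 : od c < (n : Ordinal.{0}) := hc
    obtain ⟨k, hk⟩ := Ordinal.lt_omega0.mp (h2.trans (Ordinal.natCast_lt_omega0 n))
    rw [hk] at h2
    have h3 : k < n := by exact_mod_cast h2
    exact ⟨⟨k, h3⟩, od_injective (by rw [he, hk])⟩
  let lift : PM L (Fin n) → PM L Om := fun w =>
    (w.1, fun c => if h : ∃ i, e i = c then w.2 h.choose else 0)
  have hlift : ∀ (w : PM L (Fin n)) (i : Fin n), (lift w).2 (e i) = w.2 i := by
    intro w i
    have h2 : ∃ j, e j = e i := ⟨i, rfl⟩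
    have h3 : (lift w).2 (e i) = w.2 h2.choose := dif_pos h2
    rw [h3, heinj h2.choose_spec]
  have hliftE : ∀ (F : Set Om), F ⊆ A0 → ∀ (γ : Ordinal.{0}) (w w' : PM L (Fin n)),
      EqT ((Finset.univ : Finset (Fin n)) : Set (Fin n)) γ w w' →
      EqT F γ (lift w) (lift w') := by
    intro F hF γ w w' h
    refine BFR.anti ?_ h
    rintro _ ⟨c, hc, rfl⟩
    obtain ⟨i, rfl⟩ := hAe c (hF hc)
    refine ⟨i, by simp, ?_⟩
    show (w.2 i, w'.2 i) = ((lift w).2 (e i), (lift w').2 (e i))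
    rw [hlift, hlift]
  let T0 : TA L := fun F γ => {z | z.1 ∈ K ∧ ∃ w ∈ b γ, EqT (F : Set Om) γ z (lift w)}
  have hT0 : ∀ F : Finset Om, (F : Set Om) ⊆ A0 → ∀ γ < om1, ∀ w ∈ b γ, ∀ z,
      z ∈ T0 F γ ↔ z.1 ∈ K ∧ EqT (F : Set Om) γ z (lift w) := by
    intro F hF γ hγ w hw z
    constructor
    · rintro ⟨hz, w', hw', h⟩
      exact ⟨hz, h.trans (hliftE F hF γ w' w ((hb.cls γ hγ).eqT hw' hw))⟩
    · rintro ⟨hz, h⟩
      exact ⟨hz, w, hw, h⟩
  have hasg : IsAsg K A0 T0 := by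
    refine ⟨fun F hF γ hγ => ?_, fun F F' hFF hF' β γ hβ hγ z hz => ?_⟩
    · obtain ⟨w, hw, hwK⟩ := (hb.cls γ hγ).nonempty
      exact ⟨lift w, (hT0 F hF γ hγ w hw _).mpr ⟨hwK, EqT.refl _ _ _⟩, hwK, hT0 F hF γ hγ w hw⟩
    · obtain ⟨hzK, w, hw, h⟩ := hz
      exact ⟨hzK, w, hb.anti β γ hβ hγ hw, h.mono (fun c hc => hFF hc) hβ⟩
  -- the book
  obtain ⟨g0, hg0⟩ := exists_book
  let g : Om → Finset Om × Om × ℕ := fun c => if c ∈ A0 then ({c}, c, 0) else g0 c
  have hg : ∀ t (A : Set Om), A.Countable → ∃ c ∉ A, g c = t := by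
    intro t A hA
    obtain ⟨c, hc, h⟩ := hg0 t (A ∪ A0) (hA.union hA0c)
    refine ⟨c, fun h' => hc (Or.inl h'), ?_⟩
    show (if c ∈ A0 then ({c}, c, 0) else g0 c) = t
    rw [if_neg fun h' => hc (Or.inr h'), h]
  have hr : ∀ (F : Finset Om) (β : Om), ∃ r : ℕ → PM L Om × ℕ, ∀ (y : PM L Om) (m : ℕ),
      y.1 ∈ K → ∃ k, EqP (F : Set Om) (od β) y m (r k).1 (r k).2 := fun F β =>
    scat_EqP hS.scat F (od_lt β)
  choose r hr using hr
  have hgood0 : Pool.Agent.Helper79.VC.Good K g r (T0 ∅) A0 T0 := by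
    refine ⟨?_, hasg, fun γ hγ => rfl, fun c hc => ?_⟩
    · intro c d hdc hc
      have h2 : od d ≤ od c := by
        rcases hdc.lt_or_eq with h | h
        · exact (od_lt_od.mpr h).le
        · rw [h]
      exact h2.trans_lt hc
    · intro h2
      exfalso
      have h3 : (g c).1 = {c} := by
        show (if c ∈ A0 then (({c} : Finset Om), c, 0) else g0 c).1 = {c}
        rw [if_pos hc]
      exact lt_irrefl c (h2 c (by rw [h3]; exact Finset.mem_singleton_self c))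
  obtain ⟨T, hT, hTT0⟩ := exists_good_from hS.meas hS.scat g r hgood0
  have hval : Function.Injective (Subtype.val : Om0 T → Om) := Subtype.val_injective
  have hrange : range (Subtype.val : Om0 T → Om) = Om0 T := Subtype.range_val
  let SM : L.Structure (Om0 T) := pl (SOm T) Subtype.val
  have hd : ∀ i : Fin n, ∃ d ∈ Om0 T, Eqv T d (e i) := fun i => exists_rep hT (e i)
  choose d hd hde using hd
  let bN : Fin n → Om0 T := fun i => ⟨d i, hd i⟩
  have hloc : ∀ γ < om1, ∀ w ∈ b γ,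
      BFR SM w.1 univ univ γ (range fun i => (bN i, w.2 i)) := by
    intro γ hγ w hw
    obtain ⟨z, hz, hzK⟩ := exists_mem hT (Finset.univ.image d ∪ Finset.univ.image e) hγ
    have hzD : z ∈ T (Finset.univ.image d) γ :=
      hT.down Finset.subset_union_left le_rfl hγ hz
    have hzE : z ∈ T (Finset.univ.image e) γ :=
      hT.down Finset.subset_union_right le_rfl hγ hz
    have hD : ((Finset.univ.image d : Finset Om) : Set Om) ⊆ Om0 T := by
      intro c hc
      obtain ⟨i, -, rfl⟩ := Finset.mem_image.mp (Finset.mem_coe.mp hc)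
      exact hd i
    have hE : ((Finset.univ.image e : Finset Om) : Set Om) ⊆ A0 := by
      intro c hc
      obtain ⟨i, -, rfl⟩ := Finset.mem_image.mp (Finset.mem_coe.mp hc)
      exact heA i
    have h2 := loc hT hg hr γ hγ _ hD z hzD
    have h3 : BFR SM (SOm T) univ (Om0 T) γ (range fun i => (bN i, d i)) := by
      have := BFR_pl (S := SOm T) hval γ (p := range fun i => (bN i, d i)) (by
        rintro _ ⟨i, rfl⟩
        rfl)
      rwa [hrange] at this
    rw [hTT0 _ hE γ hγ, hT0 _ hE γ hγ w hw] at hzE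
    have h4 : BFR z.1 w.1 univ univ γ (prs ((Finset.univ.image e : Finset Om) : Set Om) z
      (lift w)) := hzE.2
    refine (h3.trans h2 (r := range fun i => (bN i, z.2 (d i))) ?_).trans h4 ?_
    · rintro _ ⟨i, rfl⟩
      exact ⟨d i, ⟨i, rfl⟩, d i, Finset.mem_coe.mpr (Finset.mem_image_of_mem d
        (Finset.mem_univ i)), rfl⟩
    · rintro _ ⟨i, rfl⟩
      refine ⟨z.2 (d i), ⟨i, rfl⟩, e i, Finset.mem_coe.mpr (Finset.mem_image_of_mem e
        (Finset.mem_univ i)), ?_⟩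
      have h5 : z.2 (d i) = z.2 (e i) := by
        refine (eqv_iff hT ?_ ?_ hγ hz).mp (hde i)
        · exact Finset.mem_union_left _ (Finset.mem_image_of_mem d (Finset.mem_univ i))
        · exact Finset.mem_union_right _ (Finset.mem_image_of_mem e (Finset.mem_univ i))
      show (z.2 (e i), (lift w).2 (e i)) = (z.2 (d i), w.2 i)
      rw [h5, hlift]
  have hlev : Lev K SM := by
    intro γ hγ
    obtain ⟨w, hw, hwK⟩ := (hb.cls γ hγ).nonempty
    exact ⟨w.1, hwK, BFR.anti (empty_subset _) (hloc γ hγ w hw)⟩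
  refine ⟨Om0 T, SM, bN, V, hV, ⟨hS.meas, hS.scat, hS.lt, hS.om, hS.clos, hlev⟩,
    fun γ hγ => ⟨{α ∈ V | x α ∉ b γ} ∪ {w | od w < γ}, (hbV γ hγ).union (countable_od_lt hγ),
      fun q hq hqC => ?_⟩⟩
  have h5 : x q ∈ b γ := by
    by_contra h
    exact hqC (Or.inl ⟨hq, h⟩)
  have h6 : γ ≤ od q := by
    by_contra h
    exact hqC (Or.inr (not_le.mp h))
  have h7 : BFR (x q).1 S univ univ γ (range fun i => ((x q).2 i, a q i)) := by
    refine ((hx q).mono h6).symm ?_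
    rintro _ ⟨i, rfl⟩
    exact ⟨i, rfl⟩
  refine (hloc γ hγ _ h5).trans h7 ?_
  rintro _ ⟨i, rfl⟩
  exact ⟨(x q).2 i, ⟨i, rfl⟩, ⟨i, rfl⟩⟩

end VS

end Pool.Agent.Helper97.LO
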