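import Pool.Agent.VB.G

/-!
# VLIN, module PCLp: coding by tame parts, other parts may be wild
-/

set_option autoImplicit false
set_option linter.unusedSectionVars false
set_option linter.unusedVariables false

namespace Pool.Agent.Helper97.LO

open Set Pool.Agent.Helper5 Pool.Agent.Helper5.DU Pool.Agent.Helper6.Str
  Pool.Agent.Helper79.VC Pool.Agent.Helper97.VC Pool.Agent.Helper97.MD Pool.Agent.Helper6.VC

variable {L : FirstOrder.Language.{0, 0}} {M N P : Type} {A Γ : Type}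

namespace PCLp

variable {I : Type}

section

variable [∀ n, IsEmpty (L.Functions n)]

/-- a countable piece has a copy on `ℕ` -/
theorem on_nat {S : L.Structure M} {B : Set M} (hB : B.Countable) (x₀ : M) :
    ∃ (T : L.Structure ℕ) (Y : Set ℕ), ∀ γ, BFR T S Y B γ ∅ := by
  have hN : Nonempty M := ⟨x₀⟩
  obtain ⟨f, hf⟩ := countable_iff_exists_injOn.mp hB
  refine ⟨pl S (Function.invFunOn f B), f '' B, fun γ => ?_⟩
  have h1 : BFR S (pl S (Function.invFunOn f B)) B (f '' B) γ ∅ := by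
    refine BFR.of_map f hf rfl ?_ γ fun a ha => absurd ha (notMem_empty a)
    intro n R v hv
    have : (fun i => Function.invFunOn f B (f (v i))) = v := by
      funext i
      exact hf.leftInvOn_invFunOn (hv i)
    show _ ↔ S.RelMap R (fun i => Function.invFunOn f B (f (v i)))
    rw [this]
  exact symm_empty h1

/-- **Existence of replacements.** -/
theorem exists_repl' (hL : Ar2 L) {S : L.Structure M} {π : M → I} (hcr : CrossPi S π) (x₀ : M)
    {A : Set M} (hAc : A.Countable) {α : Ordinal.{0}} (hα : 1 < α)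
    (hA1 : ∀ γ < α, Clo S univ γ A) (hA2 : ∀ x ∈ A, ∀ γ < α, Clo S {y | π y = π x} γ A)
    (T : I → L.Structure ℕ) (Y : I → Set ℕ)
    (h : ∀ x ∈ A, ∀ β < α, BFR (T (π x)) S (Y (π x)) {y | π y = π x} β ∅) :
    ∃ (N : Type) (T' : L.Structure N) (w : N → I), Countable N ∧ Repl S π A α T' w ∧
      (∀ z, ∃ x ∈ A, w z = π x) ∧
      ∀ x ∈ A, ∀ γ, BFR T' (T (π x)) {z | w z = π x} (Y (π x)) γ ∅ := by
  classical
  let Y' : I → Set ℕ := fun i => {k | k ∈ Y i ∧ i ∈ π '' A}
  have hY' : ∀ x ∈ A, Y' (π x) = Y (π x) := by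
    intro x hx
    ext k
    exact ⟨fun hk => hk.1, fun hk => ⟨hk, x, hx, rfl⟩⟩
  have hu : ∀ (i : I) (k : ℕ), ∃ x : M, k ∈ Y' i → π x = i ∧ AtEq (T i) S {(k, x)} := by
    intro i k
    by_cases hk : k ∈ Y' i
    · obtain ⟨hk1, x, hx, rfl⟩ := hk
      obtain ⟨y, hy, h1⟩ := forth_empty (h x hx 1 hα) zero_lt_one hk1
      exact ⟨y, fun _ => ⟨hy, h1.atEq⟩⟩
    · exact ⟨x₀, fun h' => absurd h' hk⟩
  choose u hu using hu
  have hcount : Countable {w : I × ℕ // w.2 ∈ Y' w.1} := by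
    have h1 : (π '' A).Countable := hAc.image π
    have h2 : {w : I × ℕ | w.2 ∈ Y' w.1}.Countable := by
      refine (h1.prod (countable_univ (α := ℕ))).mono ?_
      rintro w hw
      exact ⟨hw.2, mem_univ _⟩
    exact h2.to_subtype
  refine ⟨{w : I × ℕ // w.2 ∈ Y' w.1}, NS S T Y' u, fun w => w.1.1, hcount, ⟨?_, ?_⟩, ?_, ?_⟩
  · intro β hβ p hp hpA hpp
    exact NS_key hL hcr (fun i k hk => hu i k hk) (hA1 β hβ) hp hpA hpp
  · intro i β hβ
    have h0 : BFR (NS S T Y' u) (T i) {w | w.1.1 = i} (Y' i) β ∅ :=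
      NS_part hL i β fun a ha => absurd ha (notMem_empty a)
    by_cases hi : i ∈ π '' A
    · obtain ⟨x, hx, rfl⟩ := hi
      rw [hY' x hx] at h0
      have h1 := h x hx β hβ
      have h2 := (hA2 x hx β hβ).rel β le_rfl ∅ finite_empty
        (fun a ha => absurd ha (notMem_empty a)) h1
      have e : A ∩ {y | π y = π x} = {y ∈ A | π y = π x} := rfl
      rw [e] at h2
      exact trans_empty h0 h2
    · rw [BFR.def]
      refine ⟨⟨fun a ha => absurd ha (notMem_empty a), fun n R v hv => ?_⟩, fun γ hγ =>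
        ⟨fun z hz => ?_, fun y hy => ?_⟩⟩
      · rcases Nat.eq_zero_or_pos n with hn | hn
        · subst hn
          exact ((hL 0 (by decide) (by decide)).false R).elim
        · exact absurd (hv ⟨0, hn⟩) (notMem_empty _)
      · exact absurd ((show z.1.1 = i from hz) ▸ z.2.2) hi
      · exact absurd ⟨y, hy.1, hy.2⟩ hi
  · intro z
    obtain ⟨-, x, hx, hxz⟩ := z.2
    exact ⟨x, hx, hxz.symm⟩
  · intro x hx γ
    rw [← hY' x hx]
    exact NS_part hL (π x) γ fun a ha => absurd ha (notMem_empty a)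

/-- **The family of replacements**, wild parts are replaced by countable pieces. -/
theorem exists_family' (hL : Ar2 L) {S : L.Structure M} {π : M → I} (hcr : CrossPi S π)
    {A : Set M} (hAc : A.Countable) {α : Ordinal.{0}} (hα : 1 < α) (hαo : α < om1)
    (hA1 : ∀ γ < α, Clo S univ γ A) (hA2 : ∀ x ∈ A, ∀ γ < α, Clo S {y | π y = π x} γ A)
    (c : ℕ → M) (hcA : ∀ n, c n ∈ A) (T : ℕ → L.Structure ℕ) (Y : ℕ → Set ℕ)
    (hV : ∀ n, ∀ β < α, BFR (T n) S (Y n) {y | π y = π (c n)} β ∅) :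
    ∃ (N : (ℕ → Bool) → Type) (T' : ∀ f, L.Structure (N f)) (w : ∀ f, N f → I),
      (∀ f, Countable (N f)) ∧ (∀ f, Repl S π A α (T' f) (w f)) ∧
      (∀ f z, ∃ x ∈ A, w f z = π x) ∧
      ∀ f, ∀ x ∈ A, (TameX S {y | π y = π x} ∧
          BFI (T' f) S {z | w f z = π x} {y | π y = π x} ∅ ∧
          ∀ n, f n = false → ¬ BFI S S {y | π y = π x} {y | π y = π (c n)} ∅) ∨
        (∃ n, f n = false ∧ BFI S S {y | π y = π x} {y | π y = π (c n)} ∅ ∧
          ∀ γ, BFR (T' f) (T n) {z | w f z = π x} (Y n) γ ∅) ∨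
        (¬ TameX S {y | π y = π x} ∧
          ∀ γ, BFR (T' f) S {z | w f z = π x} {y ∈ A | π y = π x} γ ∅) := by
  classical
  have h1 : ∀ (f : ℕ → Bool) (i : I), ∃ (T0 : L.Structure ℕ) (Y0 : Set ℕ), ∀ x, π x = i →
      (TameX S {y | π y = π x} ∧ BFI T0 S Y0 {y | π y = π x} ∅ ∧
        ∀ n, f n = false → ¬ BFI S S {y | π y = π x} {y | π y = π (c n)} ∅) ∨
      (∃ n, f n = false ∧ BFI S S {y | π y = π x} {y | π y = π (c n)} ∅ ∧ T0 = T n ∧
        Y0 = Y n) ∨
      (¬ TameX S {y | π y = π x} ∧ ∀ γ, BFR T0 S Y0 {y ∈ A | π y = π x} γ ∅) := by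
    intro f i
    by_cases hi : ∃ x, π x = i
    · obtain ⟨x, rfl⟩ := hi
      by_cases hn : ∃ n, f n = false ∧ BFI S S {y | π y = π x} {y | π y = π (c n)} ∅
      · obtain ⟨n, hn1, hn2⟩ := hn
        refine ⟨T n, Y n, fun y hy => Or.inr (Or.inl ⟨n, hn1, ?_, rfl, rfl⟩)⟩
        rw [hy]
        exact hn2
      · by_cases ht : TameX S {y | π y = π x}
        · obtain ⟨T0, Y0, h0⟩ := ht.on_nat ⟨x, rfl⟩
          refine ⟨T0, Y0, fun y hy => Or.inl ?_⟩
          rw [hy]
          exact ⟨ht, h0, fun n hn1 hn2 => hn ⟨n, hn1, hn2⟩⟩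
        · obtain ⟨T0, Y0, h0⟩ := on_nat (S := S) (B := {y ∈ A | π y = π x})
            (hAc.mono fun z hz => hz.1) x
          refine ⟨T0, Y0, fun y hy => Or.inr (Or.inr ?_)⟩
          rw [hy]
          exact ⟨ht, h0⟩
    · exact ⟨T 0, Y 0, fun x hx => absurd ⟨x, hx⟩ hi⟩
  choose T0 Y0 h0 using h1
  have h2 : ∀ f, ∀ x ∈ A, ∀ β < α,
      BFR (T0 f (π x)) S (Y0 f (π x)) {y | π y = π x} β ∅ := by
    intro f x hx β hβ
    rcases h0 f (π x) x rfl with ⟨-, h3, -⟩ | ⟨n, -, h3, h4, h5⟩ | ⟨-, h3⟩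
    · exact h3 β (hβ.trans hαo)
    · rw [h4, h5]
      exact trans_empty (hV n β hβ) (symm_empty (h3 β (hβ.trans hαo)))
    · have h4 := (hA2 x hx β hβ).bfr finite_empty (empty_subset _)
      have h5 : BFR S S {y | π y = π x} {y ∈ A | π y = π x} β ∅ := BFR.anti (empty_subset _) h4
      exact trans_empty (h3 β) (symm_empty h5)
  choose N T' w hN hR hw hb using fun f => exists_repl' hL hcr (c 0) hAc hα hA1 hA2
    (T0 f) (Y0 f) (h2 f)
  refine ⟨N, T', w, hN, hR, hw, fun f x hx => ?_⟩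
  rcases h0 f (π x) x rfl with ⟨h6, h3, h4⟩ | ⟨n, h6, h3, h4, h5⟩ | ⟨h6, h3⟩
  · exact Or.inl ⟨h6, fun γ hγ => trans_empty (hb f x hx γ) (h3 γ hγ), h4⟩
  · refine Or.inr (Or.inl ⟨n, h6, h3, fun γ => ?_⟩)
    have := hb f x hx γ
    rwa [h4, h5] at this
  · exact Or.inr (Or.inr ⟨h6, fun γ => trans_empty (hb f x hx γ) (h3 γ)⟩)

end

section

variable [∀ n, IsEmpty (L.Functions n)] [∀ n, Countable (L.Relations n)]
  {K : Set (L.Structure ℕ)} {δ : Ordinal.{0}} {S : L.Structure M}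

/-- closed sets -/
theorem exists_good_set' (hS : VSt K δ S) {π : M → I} (hsm : ∀ x, Small S {y | π y = π x})
    {A₀ : Set M} (hA₀ : A₀.Countable) {μ : Ordinal.{0}} (hμ : μ < om1) :
    ∃ (A : Set M) (lam : Ordinal.{0}), A.Countable ∧ A₀ ⊆ A ∧ μ < lam ∧ lam < om1 ∧
      (∀ a < lam, ∀ b < lam, a + b < lam) ∧ (∀ γ < lam, Clo S univ γ A) ∧
      (∀ x ∈ A, ∀ γ < lam, Clo S {y | π y = π x} γ A) ∧
      ∀ x ∈ A, TameX S {y | π y = π x} → ∃ σ < lam, SL S {y | π y = π x} σ := by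
  classical
  obtain ⟨f1, hf1, -, hf1c⟩ := hS.small.exists_wit
  choose g hg hgX hgw using fun x => (hsm x).exists_wit
  have hσ0 : ∀ x, ∃ σ : Ordinal.{0}, σ < om1 ∧ (TameX S {y | π y = π x} →
      SL S {y | π y = π x} σ) := by
    intro x
    by_cases ht : TameX S {y | π y = π x}
    · obtain ⟨σ, hσ, hσ'⟩ := ht.exists_SL
      exact ⟨σ, hσ, fun _ => hσ'⟩
    · exact ⟨0, Ordinal.omega_pos 1, fun h => absurd h ht⟩
  choose σ hσ hσ' using hσ0
  obtain ⟨A, lam, hAc, hA₀A, hμl, hlo, hladd, hcl⟩ := exists_pair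
    (fun F γ => f1 F γ ∪ ⋃ x ∈ F, ⋃ G ∈ F.powerset, g x G γ) (by
      intro F γ hγ
      refine (hf1 F γ).union ?_
      exact F.finite_toSet.countable.biUnion fun x _ =>
        (F.powerset).finite_toSet.countable.biUnion fun G _ => hg x G γ)
    (fun F γ => F.sup σ) (by
      intro F γ hγ
      show F.sup σ < om1
      rw [Finset.sup_lt_iff (Ordinal.omega_pos 1)]
      exact fun x _ => hσ x) hA₀ hμ
  have hl0 : (0 : Ordinal.{0}) < lam := lt_of_le_of_lt (zero_le (a := μ)) hμl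
  refine ⟨A, lam, hAc, hA₀A, hμl, hlo, hladd, fun γ hγ => ?_, fun x hx γ hγ => ?_,
    fun x hx ht => ?_⟩
  · refine hf1c A γ (hγ.trans hlo) fun F hF => ?_
    have := (hcl F (fun a ha => (hF ha).1) γ hγ).1
    exact fun a ha => this (Or.inl ha)
  · refine hgw x A γ (hγ.trans hlo) fun F hF => ?_
    have h1 : ((insert x F : Finset M) : Set M) ⊆ A := by
      rw [Finset.coe_insert, insert_subset_iff]
      exact ⟨hx, fun a ha => (hF ha).1⟩
    intro e he
    refine (hcl _ h1 γ hγ).1 (Or.inr ?_)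
    simp only [mem_iUnion]
    exact ⟨x, Finset.mem_insert_self _ _, F, Finset.mem_powerset.mpr (Finset.subset_insert _ _),
      he⟩
  · have h1 : (({x} : Finset M) : Set M) ⊆ A := by
      rw [Finset.coe_singleton, singleton_subset_iff]
      exact hx
    refine ⟨σ x, ?_, hσ' x ht⟩
    have h2 := (hcl _ h1 0 hl0).2
    exact lt_of_le_of_lt (Finset.le_sup (f := σ) (Finset.mem_singleton_self x)) h2

/-- No sequence of definable tame parts which are pairwise different and have no small Scott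
level. -/
theorem pcl_no_seq' (hL : Ar2 L) (hS : VSt K δ S) {π : M → I} (hcr : CrossPi S π)
    {η : Ordinal.{0}} (hη : η < om1)
    (hd : ∀ x y x' y', BFR S S univ univ η {(x, x'), (y, y')} → (π x = π y ↔ π x' = π y'))
    {α : Ordinal.{0}} (hαo : α < om1) (hδα : δ < α) (hηα : η < α) (hlim : ∀ β < α, β + 1 < α)
    (c : ℕ → M) (hct : ∀ n, TameX S {y | π y = π (c n)})
    (hc1 : ∀ n, ¬ SL S {y | π y = π (c n)} α)
    (hc2 : ∀ m n, m ≠ n → ¬ BFI S S {y | π y = π (c m)} {y | π y = π (c n)} ∅) : False := by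
  have hα0 : 0 < α := lt_of_le_of_lt (zero_le (a := δ)) hδα
  have hα1 : 1 < α := by
    have := hlim 0 hα0
    rwa [zero_add] at this
  have hsm : ∀ x, Small S {y | π y = π x} := by
    intro x
    refine hS.small_sub {x} hη fun y y' h => ?_
    refine hd y x y' x (BFR.anti ?_ h)
    rintro _ (rfl | rfl)
    · exact mem_insert _ _
    · refine mem_insert_of_mem _ ⟨x, ?_, rfl⟩
      simp
  obtain ⟨g, T, Y, hg, hV, hV'⟩ := exists_omit_seq (fun n => {y | π y = π (c n)})
    hct hαo hα0 hlim hc1 hc2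
  obtain ⟨A, lam, hAc, hcA, hαl, hlo, hladd, hA1, hA2, hAσ⟩ := exists_good_set' hS hsm
    (countable_range c) hαo
  have hcA' : ∀ n, c (g n) ∈ A := fun n => hcA ⟨g n, rfl⟩
  have hωl : Ordinal.omega0 < lam := by
    refine lt_of_le_of_lt ?_ (hδα.trans hαl)
    exact (le_self_add (a := Ordinal.omega0) (b := Ordinal.omega0)).trans hS.om
  obtain ⟨N, T', w, hN, hR, hw, hfam⟩ := exists_family' hL hcr hAc hα1 hαo
    (fun γ hγ => hA1 γ (hγ.trans hαl)) (fun x hx γ hγ => hA2 x hx γ (hγ.trans hαl))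
    (fun n => c (g n)) hcA' T Y hV
  have hne : ∀ m n, m ≠ n → ¬ BFI S S {y | π y = π (c (g m))} {y | π y = π (c (g n))} ∅ :=
    fun m n hmn => hc2 _ _ fun h => hmn (hg h)
  have D1 : ∀ f, ∀ z : N f, ∀ n,
      BFI (T' f) S {z' | w f z' = w f z} {y | π y = π (c (g n))} ∅ → f n = true := by
    intro f z n hb
    obtain ⟨x, hx, hzx⟩ := hw f z
    rw [hzx] at hb
    rcases hfam f x hx with ⟨-, h1, h2⟩ | ⟨m, -, -, h3⟩ | ⟨h1, h2⟩
    · by_contra hf
      refine h2 n (by simpa using hf) fun γ hγ => ?_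
      exact trans_empty (symm_empty (h1 γ hγ)) (hb γ hγ)
    · exact absurd (fun γ hγ => trans_empty (symm_empty (h3 γ)) (hb γ hγ)) (hV' m n)
    · exfalso
      obtain ⟨σ, hσ, hσ'⟩ := hAσ _ (hcA' n) (hct _)
      have hσo : σ < om1 := hσ.trans hlo
      have h3 : σ + Ordinal.omega0 < lam := hladd σ hσ _ hωl
      have h4 : BFR S S {y | π y = π x} {y ∈ A | π y = π x} (σ + Ordinal.omega0) ∅ :=
        BFR.anti (empty_subset _) ((hA2 x hx _ h3).bfr finite_empty (empty_subset _))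
      have h5 : BFR S S {y | π y = π x} {y | π y = π (c (g n))} (σ + Ordinal.omega0) ∅ :=
        trans_empty h4 (trans_empty (symm_empty (h2 _)) (hb _ (h3.trans hlo)))
      refine h1 ((hct (g n)).congr fun γ _ => ?_)
      exact hσ'.det' hσo finite_empty (fun a ha => absurd ha (notMem_empty a))
        (symm_empty h5) γ
  have D2 : ∀ f n, f n = true →
      BFI (T' f) S {z | w f z = π (c (g n))} {y | π y = π (c (g n))} ∅ := by
    intro f n hf
    rcases hfam f (c (g n)) (hcA' n) with ⟨-, h1, h2⟩ | ⟨m, h4, h5, h3⟩ | ⟨h1, h2⟩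
    · exact h1
    · exfalso
      refine hne n m ?_ h5
      rintro rfl
      rw [hf] at h4
      exact absurd h4 (by decide)
    · exact absurd (hct _) h1
  refine pcl_decode hS hδα hlo hη (fun n => π (c (g n))) (fun n => ⟨c (g n), rfl⟩) ?_ N T' w hN
    hR D1 D2 ?_
  · intro n
    obtain ⟨σ, hσ, hσ'⟩ := hAσ _ (hcA' n) (hct _)
    exact ⟨σ, (hladd σ hσ _ hωl).le, hσ'⟩
  · -- the parts are respected
    have hη2 : η + 1 + 1 < α := hlim _ (hlim _ hηα)
    have hpair : ∀ f, ∀ x y : N f, ∃ x1 y1, w f x = π x1 ∧ w f y = π y1 ∧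
        BFR (T' f) S univ univ η {(x, x1), (y, y1)} := by
      intro f x y
      have h1 := (hR f).good (U := ∅) hη2 (fun i hi => absurd hi (notMem_empty i))
      obtain ⟨y1, -, hy1, h2⟩ := h1.forth hAc (hη2.trans hαo |>.trans_le' (lt_add_one_self _).le)
        (lt_add_one_self _) y
      obtain ⟨x1, -, hx1, h3⟩ := h2.forth hAc hη (lt_add_one_self _) x
      refine ⟨x1, y1, hx1.symm, hy1.symm, BFR.anti ?_ (h3.key (hR f) hηα)⟩
      rintro _ (rfl | rfl)
      · exact mem_insert _ _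
      · exact mem_insert_of_mem _ (mem_insert _ _)
    intro f f' x y x' y' hb
    obtain ⟨x1, y1, h1, h2, h3⟩ := hpair f x y
    obtain ⟨x2, y2, h4, h5, h6⟩ := hpair f' x' y'
    rw [h1, h2, h4, h5]
    refine hd x1 y1 x2 y2 ?_
    have h7 : BFR S (T' f) univ univ η {(x1, x), (y1, y)} := by
      refine h3.symm ?_
      rintro _ (rfl | rfl)
      · exact Or.inl rfl
      · exact Or.inr rfl
    have h8 : BFR S (T' f') univ univ η {(x1, x'), (y1, y')} := by
      refine h7.trans hb ?_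
      rintro _ (rfl | rfl)
      · exact ⟨x, Or.inl rfl, Or.inl rfl⟩
      · exact ⟨y, Or.inr rfl, Or.inr rfl⟩
    refine h8.trans h6 ?_
    rintro _ (rfl | rfl)
    · exact ⟨x', Or.inl rfl, Or.inl rfl⟩
    · exact ⟨y', Or.inr rfl, Or.inr rfl⟩

end

end PCLp

section VS

variable [∀ n, IsEmpty (L.Functions n)] [∀ n, Countable (L.Relations n)]
  {K : Set (L.Structure ℕ)} {δ : Ordinal.{0}} {S : L.Structure M} {τ : M → M → A} {rv : A → A}
  {c : M → Γ} {m : Γ → Γ → A}

theorem pcl_def' (hL : Ar2 L) (hS : VSt K δ S) {E : M → M → Prop} (hE : Equivalence E)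
    (hc : CrossRule S E) {η : Ordinal.{0}} (hη : η < om1)
    (hd : ∀ x y x' y', BFR S S univ univ η {(x, x'), (y, y')} → (E x y ↔ E x' y')) :
    ∃ κ : M → ℕ, ∀ x y, TameX S {z | E x z} → TameX S {z | E y z} → κ x = κ y →
      BFI S S {z | E x z} {z | E y z} ∅ := by
  classical
  let s : Setoid M := ⟨E, hE⟩
  let π : M → Quotient s := Quotient.mk s
  have hπ : ∀ x y, π x = π y ↔ E x y := fun x y => Quotient.eq
  have hpart : ∀ x, {z | E x z} = {z | π z = π x} := by
    intro x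
    ext z
    rw [mem_ofPred_eq, mem_ofPred_eq, hπ]
    exact ⟨fun h => hE.symm h, fun h => hE.symm h⟩
  have hcr : CrossPi S π := crossPi_of_rule hπ hc
  have hd' : ∀ x y x' y', BFR S S univ univ η {(x, x'), (y, y')} →
      (π x = π y ↔ π x' = π y') := by
    intro x y x' y' h
    rw [hπ, hπ]
    exact hd x y x' y' h
  have hη' : max δ η < om1 := max_lt hS.lt hη
  set α : Ordinal.{0} := max δ η + Ordinal.omega0 with hα
  have hαo : α < om1 := add_lt_om1 hη' omega_lt_om1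
  have hδα : δ < α := (le_max_left _ _).trans_lt (lt_add_omega_self _)
  have hηα : η < α := (le_max_right _ _).trans_lt (lt_add_omega_self _)
  -- finitely many types of large tame parts
  obtain ⟨F, hF⟩ : ∃ F : Finset M, ∀ x, TameX S {y | π y = π x} ∧ ¬ SL S {y | π y = π x} α →
      ∃ y ∈ F, BFI S S {z | π z = π x} {z | π z = π y} ∅ := by
    by_contra hcon
    push Not at hcon
    obtain ⟨c, hc1, hc2⟩ := exists_seq_of_forall_finset_exists
      (fun x => TameX S {y | π y = π x} ∧ ¬ SL S {y | π y = π x} α)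
      (fun x y => ¬ BFI S S {z | π z = π y} {z | π z = π x} ∅) (by
        intro F _
        obtain ⟨x, hx1, hx2⟩ := hcon F
        exact ⟨x, hx1, fun y hy hb => hx2 y hy hb⟩)
    refine PCLp.pcl_no_seq' hL hS hcr hη hd' hαo hδα hηα (lim_add_omega _) c
      (fun n => (hc1 n).1) (fun n => (hc1 n).2) ?_
    intro m n hmn hb
    rcases lt_or_gt_of_ne hmn with h | h
    · exact hc2 m n h fun γ hγ => symm_empty (hb γ hγ)
    · exact hc2 n m h hb
  obtain ⟨κ₁, hκ₁⟩ := hS.code (γ := η + (α + Ordinal.omega0))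
    (add_lt_om1 hη (add_lt_om1 hαo omega_lt_om1)) 1
  have hsmall : ∀ x y, SL S {z | π z = π x} α → κ₁ (fun _ => x) = κ₁ (fun _ => y) →
      BFI S S {z | π z = π x} {z | π z = π y} ∅ := by
    intro x y hx hxy
    have h1 := hκ₁ _ _ hxy
    have h2 : BFR S S univ univ (η + (α + Ordinal.omega0)) {(x, y)} := by
      refine BFR.anti ?_ h1
      rintro _ rfl
      exact ⟨0, rfl⟩
    have h3 : BFR S S {z | π z = π x} {z | π z = π y} (α + Ordinal.omega0) {(x, y)} := by
      refine BFR.restr (subset_univ _) (subset_univ _) η _ ?_ h2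
      intro z _ z' _ hz
      exact hd' z x z' y hz
    exact fun γ _ => hx.det' hαo finite_empty (fun a ha => absurd ha (notMem_empty a))
      (BFR.anti (empty_subset _) h3) γ
  choose! k hkF hk using hF
  let enc : M → Option (ℕ ⊕ {y // y ∈ F}) := fun x =>
    if ht : TameX S {z | π z = π x} then
      some (if hx : SL S {z | π z = π x} α then Sum.inl (κ₁ fun _ => x)
        else Sum.inr ⟨k x, hkF x ⟨ht, hx⟩⟩)
    else none
  obtain ⟨e, he⟩ := exists_injective_nat (Option (ℕ ⊕ {y // y ∈ F}))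
  refine ⟨fun x => e (enc x), fun x y htx hty hxy => ?_⟩
  have hxy' : enc x = enc y := he hxy
  rw [hpart] at htx hty
  rw [hpart, hpart]
  simp only [enc, dif_pos htx, dif_pos hty, Option.some.injEq] at hxy'
  by_cases hx : SL S {z | π z = π x} α <;> by_cases hy : SL S {z | π z = π y} α
  · simp only [dif_pos hx, dif_pos hy, Sum.inl.injEq] at hxy'
    exact hsmall x y hx hxy'
  · simp only [dif_pos hx, dif_neg hy] at hxy'
    exact absurd hxy' (by simp)
  · simp only [dif_neg hx, dif_pos hy] at hxy'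
    exact absurd hxy' (by simp)
  · simp only [dif_neg hx, dif_neg hy, Sum.inr.injEq, Subtype.mk.injEq] at hxy'
    intro γ hγ
    have h1 := hk x ⟨htx, hx⟩ γ hγ
    have h2 := hk y ⟨hty, hy⟩ γ hγ
    rw [hxy'] at h1
    exact trans_empty h1 (symm_empty h2)

end VS

end Pool.Agent.Helper97.LO
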