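import Pool.Agent.VLin.Defs

/-!
# VLIN, module CMP: compactness
-/

set_option autoImplicit false
set_option linter.unusedSectionVars false
set_option linter.unusedVariables false

namespace Pool.Agent.Helper97.LO

open Set Pool.Agent.Helper5 Pool.Agent.Helper5.DU Pool.Agent.Helper6.Str
  Pool.Agent.Helper79.VC Pool.Agent.Helper97.VC Pool.Agent.Helper97.MD Pool.Agent.Helper6.VC

variable {L : FirstOrder.Language.{0, 0}} {M N P : Type} {A Γ : Type}

theorem FinLin.mono {τ : M → M → A} {P Q : Set M} {k : ℕ} (h : FinLin τ Q k) (hPQ : P ⊆ Q) :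
    FinLin τ P k := fun F hF => h F (hF.trans hPQ)

/-- pulling back a family of functions does not increase the number of elements -/
private lemma cmp_pull {β γ : Type} {s : Set β} (hs : s.Finite) (φ : β → γ) {t : Set γ}
    (ht : t ⊆ φ '' s) {k : ℕ} (h : s.ncard ≤ k) : t.ncard ≤ k :=
  (ncard_le_ncard ht (hs.image φ)).trans ((ncard_image_le hs).trans h)

theorem FinLin.of_inj {τ : M → M → A} {τ' : N → N → A} {k : ℕ} {P : Set M}
    (h : FinLin τ P k) {e : N → M} (he : Function.Injective e) {Q : Set N}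
    (hQ : e '' Q ⊆ P) (h' : ∀ x y, x ≠ y → τ' x y = τ (e x) (e y)) : FinLin τ' Q k := by
  classical
  intro F hF
  obtain ⟨l, hnd, hmem, hcut⟩ := h (F.image e) (by
    intro x hx
    rw [Finset.mem_coe, Finset.mem_image] at hx
    obtain ⟨y, hy, rfl⟩ := hx
    exact hQ ⟨y, hF hy, rfl⟩)
  obtain ⟨l', hl'⟩ : ∃ l' : List N, l'.map e = l := by
    have h1 : l ∈ Set.range (List.map e) := by
      rw [Set.range_list_map]
      intro x hx
      have := (hmem x).1 hx
      rw [Finset.mem_image] at this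
      obtain ⟨y, -, rfl⟩ := this
      exact ⟨y, rfl⟩
    exact h1
  subst hl'
  have hnd' : l'.Nodup := hnd.of_map e
  refine ⟨l', hnd', ?_, ?_⟩
  · intro x
    have := hmem (e x)
    rw [List.mem_map_of_injective he, Finset.mem_image] at this
    rw [this]
    constructor
    · rintro ⟨y, hy, hxy⟩
      rwa [← he hxy]
    · intro hx
      exact ⟨x, hx, rfl⟩
  · intro l₁ l₂ hl
    subst hl
    have hdis : ∀ x ∈ l₁, ∀ y ∈ l₂, x ≠ y := by
      intro x hx y hy hxy
      subst hxy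
      exact (List.nodup_append.1 hnd').2.2 x hx x hy rfl
    obtain ⟨h1, h2⟩ := hcut (l₁.map e) (l₂.map e) (List.map_append)
    have mm : ∀ (l : List N) (y : {y // y ∈ l}), e y.1 ∈ l.map e := fun l y =>
      List.mem_map_of_mem y.2
    constructor
    · refine cmp_pull (((List.finite_toSet (l₁.map e))).image _)
        (fun f (y : {y // y ∈ l₂}) => f ⟨e y.1, mm _ y⟩) ?_ h1
      rintro _ ⟨x, hx, rfl⟩
      refine ⟨_, ⟨e x, List.mem_map_of_mem hx, rfl⟩, ?_⟩
      funext y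
      exact (h' x y.1 (hdis x hx y.1 y.2)).symm
    · refine cmp_pull (((List.finite_toSet (l₂.map e))).image _)
        (fun f (x : {x // x ∈ l₁}) => f ⟨e x.1, mm _ x⟩) ?_ h2
      rintro _ ⟨y, hy, rfl⟩
      refine ⟨_, ⟨e y, List.mem_map_of_mem hy, rfl⟩, ?_⟩
      funext x
      exact (h' x.1 y (hdis x.1 x.2 y hy)).symm

private lemma cmp_lab {β : Type} {T : Set β} (hT : T.Finite) {k : ℕ} (h : T.ncard ≤ k)
    (hk : 0 < k) : ∃ φ : β → Fin k, InjOn φ T := by
  have : Nonempty (Fin k) := ⟨⟨0, hk⟩⟩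
  have h1 : T.encard ≤ (univ : Set (Fin k)).encard := by
    rw [encard_univ, ENat.card_eq_coe_fintype_card, Fintype.card_fin, ← hT.cast_ncard_eq]
    exact_mod_cast h
  obtain ⟨f, -, hf⟩ := hT.exists_injOn_of_encard_le h1
  exact ⟨f, hf⟩

private lemma cmp_rows {τ : M → M → A} {k : ℕ} (hk : 0 < k) {l₁ l₂ : List M}
    (h : ((fun (x : M) (y : {y // y ∈ l₂}) => τ x y.1) '' {x | x ∈ l₁}).ncard ≤ k) :
    ∃ r : M → Fin k, ∀ x ∈ l₁, ∀ x' ∈ l₁, r x = r x' → ∀ g ∈ l₂, τ x g = τ x' g := by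
  obtain ⟨φ, hφ⟩ := cmp_lab ((List.finite_toSet l₁).image _) h hk
  refine ⟨fun x => φ (fun (y : {y // y ∈ l₂}) => τ x y.1), fun x hx x' hx' hr g hg => ?_⟩
  have := hφ ⟨x, hx, rfl⟩ ⟨x', hx', rfl⟩ hr
  exact congrFun this ⟨g, hg⟩

private lemma cmp_ord (le : M → M → Prop) (h1 : ∀ x, le x x)
    (h2 : ∀ x y z, le x y → le y z → le x z) (h3 : ∀ x y, le x y → le y x → x = y)
    (h4 : ∀ x y, le x y ∨ le y x) : ∃ O : LinearOrder M, ∀ x y : M, O.le x y ↔ le x y := by
  classical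
  let I : LE M := ⟨le⟩
  let P : PartialOrder M := { I with
    le_refl := h1
    le_trans := h2
    le_antisymm := h3 }
  let O : LinearOrder M := { P with
    le_total := h4
    toDecidableLE := Classical.decRel _ }
  exact ⟨O, fun x y => Iff.rfl⟩

/-- **Compactness.** -/
theorem exists_layout {τ : M → M → A} {k : ℕ} (h : FinLin τ univ k) :
    ∃ _ : LinearOrder M, ∀ I : Set M, IsLowerSet I → CutK τ I k := by
  classical
  have h' : ∀ F : Finset M, ∃ l : List M, l.Nodup ∧ (∀ x, x ∈ l ↔ x ∈ F) ∧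
    ∀ l₁ l₂, l = l₁ ++ l₂ →
      ((fun (x : M) (y : {y // y ∈ l₂}) => τ x y.1) '' {x | x ∈ l₁}).ncard ≤ k ∧
      ((fun (y : M) (x : {x // x ∈ l₁}) => τ x.1 y) '' {y | y ∈ l₂}).ncard ≤ k :=
    fun F => h F (subset_univ _)
  choose l hnd hmem hcut using h'
  have hk : Nonempty M → 0 < k := by
    rintro ⟨x⟩
    have h1 := (hcut {x} (l {x}) [] (by simp)).1
    refine lt_of_lt_of_le ?_ h1
    rw [ncard_pos ((List.finite_toSet _).image _)]
    exact ⟨_, ⟨x, (hmem {x} x).2 (Finset.mem_singleton_self x), rfl⟩⟩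
  obtain ⟨U, hU⟩ : ∃ U : Ultrafilter (Finset M), (U : Filter (Finset M)) ≤ Filter.atTop :=
    ⟨Ultrafilter.of Filter.atTop, Ultrafilter.of_le _⟩
  have hev : ∀ G : Finset M, ∀ᶠ F in (U : Filter (Finset M)), G ⊆ F := fun G =>
    hU (Filter.eventually_ge_atTop G)
  have hevx : ∀ x : M, ∀ᶠ F in (U : Filter (Finset M)), x ∈ F := fun x => by
    filter_upwards [hev {x}] with F hF
    exact hF (Finset.mem_singleton_self x)
  obtain ⟨idx, hinj, htake⟩ : ∃ idx : Finset M → M → ℕ,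
      (∀ F x y, x ∈ F → idx F x = idx F y → x = y) ∧
      ∀ F m, ∃ l₁ l₂, l F = l₁ ++ l₂ ∧ (∀ x ∈ F, idx F x < m → x ∈ l₁) ∧
        ∀ x ∈ F, m ≤ idx F x → x ∈ l₂ := by
    refine ⟨fun F x => (l F).idxOf x, fun F x y hx hxy =>
      (List.idxOf_inj ((hmem F x).2 hx)).1 hxy, fun F m => ?_⟩
    refine ⟨(l F).take m, (l F).drop m, (List.take_append_drop _ _).symm, ?_, ?_⟩
    · intro x hx hxm
      rwa [List.mem_take_iff_idxOf_lt ((hmem F x).2 hx)]
    · intro x hx hxm
      have h4 : x ∈ (l F).take m ++ (l F).drop m := by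
        rw [List.take_append_drop]; exact (hmem F x).2 hx
      rw [List.mem_append] at h4
      rcases h4 with h4 | h4
      · exfalso
        rw [List.mem_take_iff_idxOf_lt ((hmem F x).2 hx)] at h4
        exact absurd h4 (not_lt.2 hxm)
      · exact h4
  obtain ⟨O, hO⟩ := cmp_ord (fun x y : M =>
      ∀ᶠ F in (U : Filter (Finset M)), idx F x ≤ idx F y)
    (fun x => Filter.Eventually.of_forall fun F => le_refl _)
    (fun x y z hxy hyz => by
      filter_upwards [hxy, hyz] with F h1 h2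
      exact h1.trans h2)
    (fun x y hxy hyx => by
      obtain ⟨F, h1, h2, h3⟩ := (hxy.and (hyx.and (hevx x))).exists
      exact hinj F x y h3 (le_antisymm h1 h2))
    (fun x y => by
      have h1 : ∀ᶠ F in (U : Filter (Finset M)), idx F x ≤ idx F y ∨
          idx F y ≤ idx F x := Filter.Eventually.of_forall fun F => le_total _ _
      exact Ultrafilter.eventually_or.1 h1)
  refine ⟨O, fun I hI => ?_⟩
  have key : ∀ x ∈ I, ∀ g, g ∉ I → ∀ᶠ F in (U : Filter (Finset M)), idx F x < idx F g := by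
    intro x hx g hg
    have h1 : ¬ ∀ᶠ F in (U : Filter (Finset M)), idx F g ≤ idx F x := fun h2 =>
      hg (hI ((hO g x).2 h2) hx)
    rw [← Ultrafilter.eventually_not] at h1
    filter_upwards [h1] with F hF
    exact not_le.1 hF
  have hsplit : ∀ G : Finset M, ∃ (F : Finset M) (l₁ l₂ : List M), l F = l₁ ++ l₂ ∧
      (∀ x ∈ G, x ∈ I → x ∈ l₁) ∧ ∀ g ∈ G, g ∉ I → g ∈ l₂ := by
    intro G
    have h1 : ∀ᶠ F in (U : Filter (Finset M)), ∀ x ∈ G, ∀ g ∈ G, x ∈ I → g ∉ I →
        idx F x < idx F g := by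
      rw [Filter.eventually_all_finset]
      intro x _
      rw [Filter.eventually_all_finset]
      intro g _
      by_cases hx : x ∈ I
      · by_cases hg : g ∈ I
        · exact Filter.Eventually.of_forall fun F _ h2 => absurd hg h2
        · filter_upwards [key x hx g hg] with F hF _ _
          exact hF
      · exact Filter.Eventually.of_forall fun F h2 => absurd h2 hx
    obtain ⟨F, h2, h3⟩ := (h1.and (hev G)).exists
    obtain ⟨m, hm1, hm2⟩ : ∃ m : ℕ, (∀ x ∈ G, x ∈ I → idx F x < m) ∧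
        ∀ g ∈ G, g ∉ I → m ≤ idx F g := by
      refine ⟨(G.filter (fun x => x ∈ I)).sup (fun x => idx F x + 1), ?_, ?_⟩
      · intro x hx hxI
        have : idx F x + 1 ≤ (G.filter (fun x => x ∈ I)).sup (fun x => idx F x + 1) :=
          Finset.le_sup (f := fun x => idx F x + 1) (Finset.mem_filter.2 ⟨hx, hxI⟩)
        omega
      · intro g hg hgI
        apply Finset.sup_le
        intro x hx
        rw [Finset.mem_filter] at hx
        exact h2 x hx.1 g hg hx.2 hgI
    obtain ⟨l₁, l₂, e1, e2, e3⟩ := htake F m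
    exact ⟨F, l₁, l₂, e1, fun x hx hxI => e2 x (h3 hx) (hm1 x hx hxI),
      fun g hg hgI => e3 g (h3 hg) (hm2 g hg hgI)⟩
  have hlim : ∀ r : Finset M → M → Fin k, ∃ R : M → Fin k, ∀ x,
      ∀ᶠ G in (U : Filter (Finset M)), r G x = R x := by
    intro r
    have : ∀ x, ∃ i : Fin k, ∀ᶠ G in (U : Filter (Finset M)), r G x = i := by
      intro x
      obtain ⟨i, hi⟩ := (U.map fun G => r G x).eq_pure_of_finite
      refine ⟨i, ?_⟩
      have h1 : {j | j = i} ∈ (U.map fun G => r G x) := by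
        rw [hi]; exact rfl
      exact h1
    choose R hR using this
    exact ⟨R, hR⟩
  constructor
  · have h1 : ∀ G : Finset M, ∃ r : M → Fin k, ∀ x ∈ G, x ∈ I → ∀ x' ∈ G, x' ∈ I →
        r x = r x' → ∀ g ∈ G, g ∉ I → τ x g = τ x' g := by
      intro G
      rcases isEmpty_or_nonempty M with hM | hM
      · exact ⟨fun x => (hM.false x).elim, fun x => (hM.false x).elim⟩
      · obtain ⟨F, l₁, l₂, h2, h3, h4⟩ := hsplit G
        obtain ⟨r, hr⟩ := cmp_rows (hk hM) (hcut F l₁ l₂ h2).1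
        exact ⟨r, fun x hx hxI x' hx' hxI' hrr g hg hgI =>
          hr x (h3 x hx hxI) x' (h3 x' hx' hxI') hrr g (h4 g hg hgI)⟩
    choose r hr using h1
    obtain ⟨R, hR⟩ := hlim r
    refine ⟨R, fun x hx x' hx' hxx g hg => ?_⟩
    obtain ⟨G, e1, e2, e3, e4, e5⟩ :=
      ((hR x).and ((hR x').and ((hevx x).and ((hevx x').and (hevx g))))).exists
    exact hr G x e3 hx x' e4 hx' (by rw [e1, e2, hxx]) g e5 hg
  · have h1 : ∀ G : Finset M, ∃ r : M → Fin k, ∀ g ∈ G, g ∉ I → ∀ g' ∈ G, g' ∉ I →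
        r g = r g' → ∀ x ∈ G, x ∈ I → τ x g = τ x g' := by
      intro G
      rcases isEmpty_or_nonempty M with hM | hM
      · exact ⟨fun x => (hM.false x).elim, fun x => (hM.false x).elim⟩
      · obtain ⟨F, l₁, l₂, h2, h3, h4⟩ := hsplit G
        obtain ⟨r, hr⟩ := cmp_rows (τ := fun x y => τ y x) (hk hM) (hcut F l₁ l₂ h2).2
        exact ⟨r, fun g hg hgI g' hg' hgI' hrr x hx hxI =>
          hr g (h4 g hg hgI) g' (h4 g' hg' hgI') hrr x (h3 x hx hxI)⟩
    choose r hr using h1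
    obtain ⟨R, hR⟩ := hlim r
    refine ⟨R, fun g hg g' hg' hgg x hx => ?_⟩
    obtain ⟨G, e1, e2, e3, e4, e5⟩ :=
      ((hR g).and ((hR g').and ((hevx g).and ((hevx g').and (hevx x))))).exists
    exact hr G g e3 hg g' e4 hg' (by rw [e1, e2, hgg]) x e5 hx

end Pool.Agent.Helper97.LO
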