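import Pool.Agent.VLin.LNd
import Pool.Agent.VLin.AT

/-!
# VLIN, module LNe: conclusion
-/

set_option autoImplicit false
set_option linter.unusedSectionVars false
set_option linter.unusedVariables false

namespace Pool.Agent.Helper97.LO

open Set Pool.Agent.Helper5 Pool.Agent.Helper5.DU Pool.Agent.Helper6.Str
  Pool.Agent.Helper79.VC Pool.Agent.Helper97.VC Pool.Agent.Helper97.MD Pool.Agent.Helper6.VC

variable {L : FirstOrder.Language.{0, 0}} {M N P : Type} {A Γ : Type}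

section LN

variable [∀ n, IsEmpty (L.Functions n)] [∀ n, Countable (L.Relations n)] [LinearOrder M]
  {K : Set (L.Structure ℕ)} {δ : Ordinal.{0}} {S : L.Structure M} {τ : M → M → A} {rv : A → A}
  {k : ℕ}


/-- the case of a wild set without wild proper initial segments -/
theorem lin_final (hL : Ar2 L) (hS : VSt K δ S) (hτ : Lbl S τ rv)
    (hlay : ∀ I : Set M, IsLowerSet I → CutK τ I k) {Z : Set M} (hZ : Dfb S Z) {k' : ℕ}
    (hZc : CutK τ Z k') (h : ∀ w ∈ Z, TT S {y | y ∈ Z ∧ y < w}) : TT S Z := by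
  classical
  by_cases hcof : ∃ B : Set M, B.Countable ∧ B ⊆ Z ∧ ∀ z ∈ Z, ∃ w ∈ B, z ≤ w
  · obtain ⟨B, hB, hBZ, hc⟩ := hcof
    have h1 : TT S (⋃ w ∈ B, ({y | y ∈ Z ∧ y < w} ∪ {w})) :=
      TT.biUnion hB fun w hw => (h w (hBZ hw)).union (TT.of_countable (countable_singleton w))
    refine h1.mono ?_
    intro z hz
    obtain ⟨w, hw, hzw⟩ := hc z hz
    simp only [mem_iUnion]
    refine ⟨w, hw, ?_⟩
    rcases hzw.lt_or_eq with h2 | h2
    · exact Or.inl ⟨hz, h2⟩
    · exact Or.inr h2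
  · push Not at hcof
    by_contra hn
    have hinf : Infinite Z := infinite_of_not_tt hn
    obtain ⟨dat, hdat, hrow⟩ := exists_rowdat hτ hZ hZc
    obtain ⟨F₁, η₁, hη₁, h1⟩ := hZ
    obtain ⟨F₂, η₂, hη₂, h2⟩ := hdat
    have hη : max η₁ η₂ < om1 := max_lt hη₁ hη₂
    have a1 : dg (F₁ : Set M) ⊆ dg ((F₁ ∪ F₂ : Finset M) : Set M) := by
      rintro _ ⟨a, ha, rfl⟩
      refine ⟨a, ?_, rfl⟩
      rw [Finset.coe_union]
      exact Or.inl ha
    have a2 : dg (F₂ : Set M) ⊆ dg ((F₁ ∪ F₂ : Finset M) : Set M) := by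
      rintro _ ⟨a, ha, rfl⟩
      refine ⟨a, ?_, rfl⟩
      rw [Finset.coe_union]
      exact Or.inr ha
    have hX' : ∀ c c', BFR S S univ univ (max η₁ η₂)
        (insert (c, c') (dg ((F₁ ∪ F₂ : Finset M) : Set M))) → (c ∈ Z ↔ c' ∈ Z) := by
      intro c c' hb
      exact h1 c c' (BFR.anti (insert_subset_insert a1) (hb.mono (le_max_left _ _)))
    have hd' : ∀ z ∈ Z, ∀ z' ∈ Z, BFR S S univ univ (max η₁ η₂)
        (insert (z, z') (dg ((F₁ ∪ F₂ : Finset M) : Set M))) → dat z = dat z' := by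
      intro c _ c' _ hb
      exact h2 c c' (BFR.anti (insert_subset_insert a2) (hb.mono (le_max_right _ _)))
    have hr' : ∀ z ∈ Z, ∀ w ∈ Z, ∀ z' ∈ Z, ∀ w' ∈ Z,
        BFR S S univ univ (max η₁ η₂)
          (insert (z, z') (insert (w, w') (dg ((F₁ ∪ F₂ : Finset M) : Set M)))) →
        ((fun _ _ : M => False) z w ↔ (fun _ _ : M => False) z' w') := by
      intro _ _ _ _ _ _ _ _ _
      exact Iff.rfl
    have hout : ∀ g, g ∉ Z → ∀ z ∈ Z, ∀ z' ∈ Z, dat z = dat z' → AtEq S S {(z, z')} →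
        AtEq S S {(g, g), (z, z')} := by
      intro g hg z hz z' hz' hzz hat
      refine hτ.det g z g z' ?_ ?_ ?_ hat ?_
      · rintro rfl
        exact hg hz
      · rintro rfl
        exact hg hz'
      · refine TR.atEq_refl S ?_
        rintro d rfl
        rfl
      · rw [hτ.rev z g, hτ.rev z' g, hrow g hg z hz z' hz' hzz]
    obtain ⟨K', δ', hS'⟩ := VSt.piece hL hS Z dat (fun _ _ => False) (F₁ ∪ F₂) hη hX' hd' hr' hout
    have hTP := tt_piece hL Z dat (fun _ _ => False) (F₁ ∪ F₂) hη hX' hd' hr' hout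
    have hLbl := lbl_exS (lbl_pl hτ Z) (fun z : Z => dat z.1)
    have hfin := at_main (ar2_EL hL) hS' hLbl k ?_
    · rw [hTP, image_univ, Subtype.range_val] at hfin
      exact hn hfin
    · intro X hX
      obtain ⟨w, hwZ, hw⟩ := hcof (Subtype.val '' X) (hX.image _) (by
        rintro _ ⟨x, _, rfl⟩
        exact x.2)
      refine ⟨{y | y.1 < w}, ?_, ?_, ?_⟩
      · intro x hx
        exact hw x.1 ⟨x, hx, rfl⟩
      · rw [hTP]
        refine (h w hwZ).mono ?_
        rintro _ ⟨x, hx, rfl⟩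
        exact ⟨x.2, hx⟩
      · have hlo : IsLowerSet {y : M | y < w} := fun a b hba ha => lt_of_le_of_lt hba ha
        obtain ⟨⟨r, hr⟩, r', hr'⟩ := hlay _ hlo
        refine ⟨⟨fun x => r x.1, ?_⟩, fun x => r' x.1, ?_⟩
        · intro x hx x' hx' hrr g hg
          exact hr x.1 hx x'.1 hx' hrr g.1 hg
        · intro g hg g' hg' hrr x hx
          exact hr' g.1 hg g'.1 hg' hrr x.1 hx

/-- **Structures with a layout of bounded width are tame.** -/
theorem lin (hL : Ar2 L) (hS : VSt K δ S) (hτ : Lbl S τ rv)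
    (hlay : ∀ I : Set M, IsLowerSet I → CutK τ I k) : TT S univ := by
  by_contra hn
  have hW : Wd S τ univ := ⟨univ, subset_rfl, dfb_univ, ⟨k, hlay _ isLowerSet_univ⟩, hn⟩
  obtain ⟨W, hWd, hWc, hWt, hWw⟩ := exists_scc hL hS hτ hlay hW
  have hne : W.Nonempty := by
    by_contra hY
    rw [not_nonempty_iff_eq_empty] at hY
    subst hY
    exact hWt (TT.of_countable countable_empty)
  obtain ⟨x₀, hx₀⟩ := hne
  obtain ⟨Y, hY, ⟨Z, hZY, hZ, ⟨k', hZc⟩, hZt⟩, hF⟩ :=
    wd_cover hL hS hτ hlay (⟨W, subset_rfl, hWd, hWc, hWt⟩ : Wd S τ W) {x₀}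
  apply hZt
  rcases hF x₀ (Finset.mem_singleton_self x₀) with h1 | h1
  · have hlay' : ∀ I : Set M, @IsLowerSet M (OrderDual.instLE M) I → CutK τ I k := by
      intro I hI
      have hI' : IsLowerSet Iᶜ := by
        intro a b hba ha hb
        exact ha (@hI b a hba hb)
      have := CutK.compl hτ.rev (hlay _ hI')
      rwa [compl_compl] at this
    refine @lin_final L M A _ _ (OrderDual.instLinearOrder M) K δ S τ rv k hL hS hτ hlay' Z hZ k'
      hZc ?_
    intro w hw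
    have hlo : IsLowerSet {y : M | y ≤ w} := fun a b hba ha => le_trans hba ha
    have h2 : CutK τ {y : M | y ≤ w}ᶜ k := CutK.compl hτ.rev (hlay _ hlo)
    have h3 : TT S (Z ∩ {y : M | y ≤ w}ᶜ) := nw hL hS hτ hZ hZc h2 (fun hw' => by
      refine hWw w (hY (hZY hw)) x₀ hx₀ (h1 w (hZY hw)) (hw'.mono ?_)
      intro z hz
      exact ⟨not_le.1 hz.2, h1 z (hZY hz.1)⟩)
    refine h3.mono ?_
    intro z hz
    exact ⟨hz.1, not_le.2 hz.2⟩
  · refine lin_final hL hS hτ hlay hZ hZc ?_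
    intro w hw
    have hlo : IsLowerSet {y : M | y < w} := fun a b hba ha => lt_of_le_of_lt hba ha
    exact nw hL hS hτ hZ hZc (hlay _ hlo) (fun hw' => by
      refine hWw x₀ hx₀ w (hY (hZY hw)) (h1 w (hZY hw)) (hw'.mono ?_)
      intro z hz
      exact ⟨h1 z (hZY hz.1), hz.2⟩)

end LN

end Pool.Agent.Helper97.LO
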