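import Pool.Agent.VLin.CMP
import Pool.Agent.VLin.LNe

/-!
# VLIN, module FL: structures of finite linear width are tame
-/

set_option autoImplicit false
set_option linter.unusedSectionVars false
set_option linter.unusedVariables false

namespace Pool.Agent.Helper97.LO

open Set Pool.Agent.Helper5 Pool.Agent.Helper5.DU Pool.Agent.Helper6.Str
  Pool.Agent.Helper79.VC Pool.Agent.Helper97.VC Pool.Agent.Helper97.MD Pool.Agent.Helper6.VC

variable {L : FirstOrder.Language.{0, 0}} {M N P : Type} {A Γ : Type}

section FN

variable [∀ n, IsEmpty (L.Functions n)] [∀ n, Countable (L.Relations n)]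
  {K : Set (L.Structure ℕ)} {δ : Ordinal.{0}} {S : L.Structure M}

/-- structures of finite linear width are tame -/
theorem tameX_of_finLin (hL : Ar2 L) (hS : VSt K δ S) {k : ℕ} (h : FinLin (bt S) univ k) :
    TameX S univ := by
  obtain ⟨_, hlay⟩ := exists_layout h
  exact tt_univ_iff.1 (lin hL hS (lbl_bt hL S) hlay)

end FN

end Pool.Agent.Helper97.LO
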