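import Pool.Agent.VLin.CMP
import Pool.Agent.Helper79.VCM.SP

/-!
# VLIN, module RFL: reflection
-/

set_option autoImplicit false
set_option linter.unusedSectionVars false
set_option linter.unusedVariables false

namespace Pool.Agent.Helper97.LO

open Set Pool.Agent.Helper5 Pool.Agent.Helper5.DU Pool.Agent.Helper6.Str
  Pool.Agent.Helper79.VC Pool.Agent.Helper97.VC Pool.Agent.Helper97.MD Pool.Agent.Helper6.VC
  Pool.Agent.Helper79.VCM

variable {L : FirstOrder.Language.{0, 0}} {M N P : Type} {A Γ : Type}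

private theorem rfl_card {X Y B C : Type} {F₁ : Set (Y → C)} {F₂ : Set (X → C)} (g : X → Y)
    (hfin : F₁.Finite) (h : ∀ φ ∈ F₂, ∃ ψ ∈ F₁, φ = fun x => ψ (g x)) {k : ℕ}
    (hk : F₁.ncard ≤ k) : F₂.ncard ≤ k := by
  have h1 : F₂ ⊆ (fun (ψ : Y → C) (x : X) => ψ (g x)) '' F₁ := by
    intro φ hφ
    obtain ⟨ψ, hψ, rfl⟩ := h φ hφ
    exact ⟨ψ, hψ, rfl⟩
  exact ((ncard_le_ncard h1 (hfin.image _)).trans (ncard_image_le hfin)).trans hk

private theorem rfl_transfer {τ : M → M → A} {τ' : N → N → A} {f : N → M}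
    (hf : Function.Injective f) (hτ : ∀ x y, τ' x y = τ (f x) (f y)) {P' : Set N} {k : ℕ}
    (h : FinLin τ' P' k) (F : Finset M) (hF : ∀ x ∈ F, ∃ y ∈ P', f y = x) :
    ∃ l : List M, l.Nodup ∧ (∀ x, x ∈ l ↔ x ∈ F) ∧
    ∀ l₁ l₂, l = l₁ ++ l₂ →
      ((fun (x : M) (y : {y // y ∈ l₂}) => τ x y.1) '' {x | x ∈ l₁}).ncard ≤ k ∧
      ((fun (y : M) (x : {x // x ∈ l₁}) => τ x.1 y) '' {y | y ∈ l₂}).ncard ≤ k := by
  classical
  obtain ⟨l', hn, hm, hc⟩ := h (F.preimage f hf.injOn) (by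
    intro x hx
    rw [Finset.mem_coe, Finset.mem_preimage] at hx
    obtain ⟨y, hy, hyx⟩ := hF _ hx
    rwa [← hf hyx])
  refine ⟨l'.map f, hn.map hf, ?_, ?_⟩
  · intro x
    rw [List.mem_map]
    constructor
    · rintro ⟨y, hy, rfl⟩
      rw [hm, Finset.mem_preimage] at hy
      exact hy
    · intro hx
      obtain ⟨y, -, rfl⟩ := hF x hx
      exact ⟨y, by rw [hm, Finset.mem_preimage]; exact hx, rfl⟩
  intro l₁ l₂ hl
  obtain ⟨l₁', l₂', rfl, rfl, rfl⟩ := List.map_eq_append_iff.mp hl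
  obtain ⟨h1, h2⟩ := hc l₁' l₂' rfl
  have hg : ∀ m : List N, ∀ y : {y // y ∈ m.map f}, ∃ y' : {y // y ∈ m}, f y'.1 = y.1 := by
    rintro m ⟨y, hy⟩
    obtain ⟨y', hy', rfl⟩ := List.mem_map.mp hy
    exact ⟨⟨y', hy'⟩, rfl⟩
  constructor
  · choose g hg' using hg l₂'
    refine rfl_card (B := M) g ((List.finite_toSet l₁').image _) ?_ h1
    rintro φ ⟨x, hx, rfl⟩
    obtain ⟨x', hx', rfl⟩ := List.mem_map.mp hx
    refine ⟨_, ⟨x', hx', rfl⟩, ?_⟩
    funext y
    dsimp only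
    rw [hτ, hg' y]
  · choose g hg' using hg l₁'
    refine rfl_card (B := M) g ((List.finite_toSet l₂').image _) ?_ h2
    rintro φ ⟨x, hx, rfl⟩
    obtain ⟨x', hx', rfl⟩ := List.mem_map.mp hx
    refine ⟨_, ⟨x', hx', rfl⟩, ?_⟩
    funext y
    dsimp only
    rw [hτ, hg' y]

section FN

variable [∀ n, IsEmpty (L.Functions n)] [∀ n, Countable (L.Relations n)]
  {K : Set (L.Structure ℕ)} {δ : Ordinal.{0}} {S : L.Structure M}


theorem spLinPrim_reflect (hL : Ar2 L) (hS : VSt K δ S) (h : ∀ T ∈ K, SpLinPrim T) :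
    SpLinPrim S := by
  classical
  intro P hPinf hPrim
  by_contra hcon
  rw [not_or] at hcon
  obtain ⟨hcon, hconk⟩ := hcon
  push Not at hcon hconk
  obtain ⟨g1, hg1, hg1'⟩ := exists_prim_closure (N := ℕ) (bt S) hPrim
  let e := hPinf.natEmbedding
  have hFk : ∀ k : ℕ, ∃ F : Finset M, (F : Set M) ⊆ P ∧ ¬ ∃ l : List M, l.Nodup ∧
      (∀ x, x ∈ l ↔ x ∈ F) ∧ ∀ l₁ l₂, l = l₁ ++ l₂ →
        ((fun (x : M) (y : {y // y ∈ l₂}) => bt S x y.1) '' {x | x ∈ l₁}).ncard ≤ k ∧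
        ((fun (y : M) (x : {x // x ∈ l₁}) => bt S x.1 y) '' {y | y ∈ l₂}).ncard ≤ k := by
    intro k
    have h1 := hconk k
    by_contra h2
    apply h1
    intro F hF
    by_contra h3
    exact h2 ⟨F, hF, h3⟩
  choose Fk hFkP hFkn using hFk
  have hch : ∀ b : Set (L.Relations 2), ∃ W : Set M, W.Countable ∧
      ∃ (v : ℕ → M) (Q : ℕ → ℕ → List M), Function.Injective v ∧
    (∀ i j, i < j → (v i :: (Q i j ++ [v j])).Nodup ∧
      List.IsChain (gr S P b).Adj (v i :: (Q i j ++ [v j]))) ∧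
    (∀ i j k, i < j → v k ∉ Q i j) ∧
    (∀ i j i' j', i < j → i' < j' → (i, j) ≠ (i', j') → List.Disjoint (Q i j) (Q i' j')) ∧
    (∀ i, v i ∈ W) ∧ ∀ i j, ∀ x ∈ Q i j, x ∈ W := by
    intro b
    obtain ⟨v, Q, h1, h2, h3, h4⟩ := hcon b
    refine ⟨range v ∪ ⋃ i, ⋃ j, {x | x ∈ Q i j}, ?_, v, Q, h1, h2, h3, h4, fun i => Or.inl ⟨i, rfl⟩,
      fun i j x hx => Or.inr ?_⟩
    · exact (countable_range v).union
        (countable_iUnion fun i => countable_iUnion fun j => (List.finite_toSet _).countable)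
    · simp only [mem_iUnion]
      exact ⟨i, j, hx⟩
  choose W hW hW' using hch
  obtain ⟨f, hf, hfK, hfc⟩ := exists_reflect hS.scat hS.lt hS.clos hS.lev
    (fun F => g1 F ∪ ((range (fun n => (e n : M)) ∪ ⋃ k, (Fk k : Set M)) ∪
      ⋃ x ∈ F, ⋃ y ∈ F, W (bt S x y).1))
    (fun F => (hg1 F).union (((countable_range _).union
      (countable_iUnion fun k => (Fk k).finite_toSet.countable)).union
      ((F.finite_toSet.countable).biUnion fun x _ =>
        (F.finite_toSet.countable).biUnion fun y _ => hW _)))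
  have hbt : (fun a b => bt S (f a) (f b)) = bt (pl S f) := by
    funext a b
    rw [bt_pl]
  have hprim : IsPrim (bt (pl S f)) (f ⁻¹' P) := by
    have := hg1' f hf (fun F hF x hx => hfc F hF (Or.inl hx))
    rwa [hbt] at this
  have hinf : (f ⁻¹' P).Infinite := by
    have hsub : range (fun n => (e n : M)) ⊆ range f := fun x hx =>
      hfc ∅ (by simp) (Or.inr (Or.inl (Or.inl hx)))
    intro hfin
    have h1 : (f '' (f ⁻¹' P)).Finite := hfin.image f
    rw [image_preimage_eq_inter_range] at h1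
    have h2 : (range (fun n => (e n : M))).Finite := h1.subset (by
      rintro _ ⟨n, rfl⟩
      exact ⟨(e n).2, hsub ⟨n, rfl⟩⟩)
    exact (infinite_range_of_injective (fun i j hij => e.injective (Subtype.ext hij))) h2
  have hFkr : ∀ k, ∀ x ∈ Fk k, ∃ y ∈ f ⁻¹' P, f y = x := by
    intro k x hx
    obtain ⟨y, hy⟩ := hfc ∅ (by simp) (Or.inr (Or.inl (Or.inr (mem_iUnion.mpr ⟨k, hx⟩))))
    exact ⟨y, by rw [mem_preimage, hy]; exact hFkP k hx, hy⟩
  rcases h _ hfK _ hinf hprim with ⟨b, hb⟩ | ⟨k, hk⟩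
  · apply hb
    by_cases hocc : ∃ x ∈ f ⁻¹' P, ∃ y ∈ f ⁻¹' P, bt (pl S f) x y = (b, b)
    · obtain ⟨x, hx, y, hy, hxy⟩ := hocc
      rw [bt_pl] at hxy
      obtain ⟨v, Q, h1, h2, h3, h4, h5, h6⟩ := hW' b
      have hWr : W b ⊆ range f := by
        intro w hw
        refine hfc {f x, f y} ?_ (Or.inr (Or.inr ?_))
        · intro a ha
          simp only [Finset.coe_insert, Finset.coe_singleton, mem_insert_iff,
            mem_singleton_iff] at ha
          rcases ha with rfl | rfl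
          · exact mem_range_self _
          · exact mem_range_self _
        · simp only [mem_iUnion]
          refine ⟨f x, by simp, f y, by simp, ?_⟩
          rw [hxy]
          exact hw
      refine hasTK_pull (G := gr S P b) hf ?_ h1 h2 h3 h4 (fun i => hWr (h5 i))
        (fun i j x hx => hWr (h6 i j x hx))
      rintro x' y' ⟨hne, hx', hy', hbt'⟩
      refine ⟨fun h => hne (by rw [h]), hx', hy', ?_⟩
      rw [bt_pl]
      exact hbt'
    · push Not at hocc
      refine hasTK_of_complete hinf fun x hx y hy hxy => ⟨hxy, hx, hy, hocc x hx y hy⟩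
  · exact hFkn k (rfl_transfer hf (fun x y => bt_pl S f x y) hk (Fk k) (hFkr k))

end FN

end Pool.Agent.Helper97.LO
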