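import Pool.Agent.VLin.TRX
import Pool.Agent.VLin.RFL
import Pool.Agent.Helper6.VC.UFinal

/-!
# VLIN, module FNL: the final theorem
-/

set_option autoImplicit false
set_option linter.unusedSectionVars false
set_option linter.unusedVariables false

namespace Pool.Agent.Helper97.LO

open Set Pool.Agent.Helper5 Pool.Agent.Helper5.DU Pool.Agent.Helper6.Str
  Pool.Agent.Helper79.VC Pool.Agent.Helper97.VC Pool.Agent.Helper97.MD Pool.Agent.Helper6.VC

variable {L : FirstOrder.Language.{0, 0}} {M N P : Type} {A Γ : Type}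

private theorem FNL_mono {K : Set (L.Structure ℕ)} {d d' : Ordinal.{0}} (h : ClosedLev K d)
    (hd : d ≤ d') : ClosedLev K d' :=
  fun S hS S' hSS => h S hS S' (hSS.mono hd)

/-- the main theorem for classes of structures on the natural numbers -/
private theorem FNL_main [∀ n, IsEmpty (L.Functions n)] [∀ n, Countable (L.Relations n)]
    (hL : Ar2 L) (K : Set (L.Structure ℕ)) (hK : MeasurableSet {c : Code L | toStr c ∈ K})
    (d : Ordinal.{0}) (hd : d < om1) (hcl : ClosedLev K d) (hsp : ∀ S ∈ K, SpLinPrim S)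
    (hP : ¬ PerfK K) : CtblK K := by
  by_contra hC
  have hS := scat_of_not_perf hK hP
  obtain ⟨M, S, hlev, hNT⟩ := exists_model hK hS hd hcl hC
  have hV : VSt K (max d (Ordinal.omega0 + Ordinal.omega0)) S :=
    ⟨hK, hS, max_lt hd (add_lt_om1 omega_lt_om1 omega_lt_om1), le_max_right _ _,
      FNL_mono hcl (le_max_left _ _), hlev⟩
  exact not_noCtblType (tree_lin hL hV (spLinPrim_reflect hL hV hsp)) hNT

theorem dichotomy_of_spLinPrim (hc : Countable L.Symbols) (hrel : ∀ n, IsEmpty (L.Functions n))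
    (hL : ∀ n, n ≠ 1 → n ≠ 2 → IsEmpty (L.Relations n)) (T : L.Theory)
    (φ : FmI L 0)
    (h : ∀ S : L.Structure ℕ, IsMod T φ S → SpLinPrim S) :
    (∃ g : ℕ → L.Structure ℕ, ∀ S : L.Structure ℕ, IsMod T φ S →
        ∃ n : ℕ, Nonempty (@FirstOrder.Language.Equiv L ℕ ℕ S (g n))) ∨
    (∃ f : (ℕ → Bool) → L.Structure ℕ,
        (∀ x : ℕ → Bool, IsMod T φ (f x)) ∧
        (∀ x y : ℕ → Bool,
            Nonempty (@FirstOrder.Language.Equiv L ℕ ℕ (f x) (f y)) → x = y) ∧
        (∀ (n : ℕ) (R : L.Relations n) (a : Fin n → ℕ),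
            IsClopen {x : ℕ → Bool | @FirstOrder.Language.Structure.RelMap L ℕ (f x) n R a})) := by
  have hcr : ∀ n, Countable (L.Relations n) := countable_relations hc
  let K : Set (L.Structure ℕ) := {S | IsMod T φ S}
  obtain ⟨hK, d, hd, hcl⟩ := exists_level hc T φ (K := K) fun S => Iff.rfl
  by_cases hP : PerfK K
  · obtain ⟨f, hf1, hf2, hf3⟩ := hP
    exact Or.inr ⟨f, hf1, fun x y h => hf2 x y ((nonempty_equiv_iff _ _).mp h), hf3⟩
  · obtain ⟨g, hg⟩ := FNL_main hL K hK d hd hcl (fun S hS => h S hS) hP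
    refine Or.inl ⟨g, fun S h1 => ?_⟩
    obtain ⟨n, hn⟩ := hg S h1
    exact ⟨n, (nonempty_equiv_iff S (g n)).mpr hn⟩

end Pool.Agent.Helper97.LO
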