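import Pool.Agent.VLin.LNa

/-!
# VLIN, module LNc: maximal intervals
-/

set_option autoImplicit false
set_option linter.unusedSectionVars false
set_option linter.unusedVariables false

namespace Pool.Agent.Helper97.LO

open Set Pool.Agent.Helper5 Pool.Agent.Helper5.DU Pool.Agent.Helper6.Str
  Pool.Agent.Helper79.VC Pool.Agent.Helper97.VC Pool.Agent.Helper97.MD Pool.Agent.Helper6.VC

variable {L : FirstOrder.Language.{0, 0}} {M N P : Type} {A Γ : Type}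

section LN

variable [∀ n, IsEmpty (L.Functions n)] [∀ n, Countable (L.Relations n)] [LinearOrder M]
  {K : Set (L.Structure ℕ)} {δ : Ordinal.{0}} {S : L.Structure M} {τ : M → M → A} {rv : A → A}
  {k : ℕ}


private lemma lnc_tt_empty (S : L.Structure M) : TT S (∅ : Set M) :=
  fun _ => ⟨fun _ => 0, fun _ hc => hc.elim⟩

private lemma lnc_card {β : Type} {f : M → β} {r : M → Fin k} {I : Set M}
    (h : ∀ x ∈ I, ∀ x' ∈ I, r x = r x' → f x = f x') : (f '' I).Finite ∧ (f '' I).ncard ≤ k := by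
  choose g hg using fun b : (f '' I : Set β) => b.2
  have hinj : Function.Injective (fun b : (f '' I : Set β) => r (g b)) := by
    intro b b' hb
    have h1 := h (g b) (hg b).1 (g b') (hg b').1 hb
    rw [(hg b).2, (hg b').2] at h1
    exact Subtype.ext h1
  have hf : Finite (f '' I : Set β) := Finite.of_injective _ hinj
  refine ⟨hf, ?_⟩
  have h1 := Nat.card_le_card_of_injective _ hinj
  rwa [Nat.card_coe_set_eq, Nat.card_eq_fintype_card, Fintype.card_fin] at h1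

private lemma lnc_reps {β : Type} {f : M → β} {r : M → Fin k} {I : Set M}
    (h : ∀ x ∈ I, ∀ x' ∈ I, r x = r x' → f x = f x') :
    ∃ (n : ℕ) (u : Fin n → M), (∀ i, u i ∈ I) ∧ ∀ x ∈ I, ∃ i, f x = f (u i) := by
  classical
  rcases I.eq_empty_or_nonempty with hI | ⟨x₀, hx₀⟩
  · subst hI
    exact ⟨0, fun i => i.elim0, fun i => i.elim0, fun x hx => hx.elim⟩
  · refine ⟨k, fun i => if h : ∃ x ∈ I, r x = i then h.choose else x₀, fun i => ?_,
      fun x hx => ⟨r x, ?_⟩⟩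
    · by_cases hi : ∃ x ∈ I, r x = i
      · simp only [dif_pos hi]
        exact hi.choose_spec.1
      · simp only [dif_neg hi]
        exact hx₀
    · have hi : ∃ x' ∈ I, r x' = r x := ⟨x, hx, rfl⟩
      simp only [dif_pos hi]
      exact h x hx _ hi.choose_spec.1 hi.choose_spec.2.symm

/-- the row over the complement of `J` -/
private def lnc_row (τ : M → M → A) (J : Set M) (x : M) : {g : M // g ∉ J} → A :=
  fun g => τ x g.1

private lemma lnc_row_eq {J : Set M} {x y : M} (h : lnc_row τ J x = lnc_row τ J y) {g : M}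
    (hg : g ∉ J) : τ x g = τ y g := congrFun h ⟨g, hg⟩

theorem exists_max (hrv : ∀ x y, τ y x = rv (τ x y))
    (hlay : ∀ I : Set M, IsLowerSet I → CutK τ I k) (h : Wd S τ univ) :
    ∃ (I₀ J₀ : Set M) (n k' : ℕ) (u : Fin n → M) (v : Fin k' → M) (e : Fin k → M),
      IsLowerSet I₀ ∧ IsLowerSet J₀ ∧ I₀ ⊆ J₀ ∧ Wd S τ (J₀ \ I₀) ∧
      (∀ w, w ∉ I₀ → ∃ l, ∀ i, τ (u i) w = τ (u i) (e l)) ∧
      ∀ x ∈ J₀ \ I₀, ∀ w ∈ J₀ \ I₀, x < w → Wd S τ (Ioo x w) →
        (∃ i, ∀ j, τ x (v j) = τ (u i) (v j)) ∧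
        ∀ i, (∀ j, τ x (v j) = τ (u i) (v j)) → τ x w = τ (u i) w := by
  classical
  -- rows of lower sets
  have hrow : ∀ I J : Set M, IsLowerSet I → I ⊆ J →
      (lnc_row τ J '' I).Finite ∧ (lnc_row τ J '' I).ncard ≤ k := by
    intro I J hI hIJ
    obtain ⟨⟨r, hr⟩, -⟩ := hlay I hI
    apply lnc_card (r := r)
    intro x hx x' hx' hxx
    funext g
    exact hr x hx x' hx' hxx g.1 fun hg => g.2 (hIJ hg)
  -- a nonempty structure
  have hne : Nonempty M := by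
    obtain ⟨Z, -, -, -, hZ⟩ := h
    by_contra hM
    rw [not_nonempty_iff] at hM
    apply hZ
    have : Z = ∅ := Set.eq_empty_of_isEmpty Z
    rw [this]
    exact lnc_tt_empty S
  -- the maximal pair
  set V : Set ℕ := {t | ∃ I J : Set M, IsLowerSet I ∧ IsLowerSet J ∧ I ⊆ J ∧ Wd S τ (J \ I) ∧
    (lnc_row τ J '' I).ncard = t} with hV
  have hVne : V.Nonempty := by
    refine ⟨_, ∅, univ, isLowerSet_empty, isLowerSet_univ, empty_subset _, ?_, rfl⟩
    rw [sdiff_empty]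
    exact h
  have hVb : BddAbove V := by
    refine ⟨k, ?_⟩
    rintro t ⟨I, J, hI, -, hIJ, -, rfl⟩
    exact (hrow I J hI hIJ).2
  obtain ⟨I₀, J₀, hI₀, hJ₀, hIJ, hW, hcard⟩ := Nat.sSup_mem hVne hVb
  have hmax : ∀ I J : Set M, IsLowerSet I → IsLowerSet J → I ⊆ J → Wd S τ (J \ I) →
      (lnc_row τ J '' I).ncard ≤ (lnc_row τ J₀ '' I₀).ncard := by
    intro I J hI hJ hIJ' hW'
    rw [hcard]
    exact le_csSup hVb ⟨I, J, hI, hJ, hIJ', hW', rfl⟩
  -- representatives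
  obtain ⟨⟨r, hr⟩, ⟨s, hs⟩⟩ := hlay I₀ hI₀
  obtain ⟨-, ⟨s', hs'⟩⟩ := hlay J₀ hJ₀
  obtain ⟨n, u, hu, hu'⟩ := lnc_reps (f := lnc_row τ I₀) (r := r) (I := I₀)
    (fun x hx x' hx' hxx => funext fun g => hr x hx x' hx' hxx g.1 g.2)
  obtain ⟨k', v, hv, hv'⟩ := lnc_reps (f := fun g (x : {x // x ∈ J₀}) => τ x.1 g) (r := s')
    (I := J₀ᶜ) (fun g hg g' hg' hgg => funext fun x => hs' g hg g' hg' hgg x.1 x.2)
  obtain ⟨e, he⟩ : ∃ e : Fin k → M, ∀ w, w ∉ I₀ → ∃ l, ∀ x ∈ I₀, τ x w = τ x (e l) := by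
    refine ⟨fun l => if h : ∃ g, g ∉ I₀ ∧ s g = l then h.choose else hne.some,
      fun w hw => ⟨s w, fun x hx => ?_⟩⟩
    have hi : ∃ g, g ∉ I₀ ∧ s g = s w := ⟨w, hw, rfl⟩
    simp only [dif_pos hi]
    exact hs w hw _ hi.choose_spec.1 hi.choose_spec.2.symm x hx
  refine ⟨I₀, J₀, n, k', u, v, e, hI₀, hJ₀, hIJ, hW, fun w hw => ?_, ?_⟩
  · obtain ⟨l, hl⟩ := he w hw
    exact ⟨l, fun i => hl (u i) (hu i)⟩
  intro x hx w hw hxw hWxw
  -- the interval
  have hJJ : Iio w ⊆ J₀ := fun y hy => hJ₀ (le_of_lt hy) hw.1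
  have hII : I₀ ⊆ Iic x := fun y hy => by
    by_contra hyx
    exact hx.2 (hI₀ (not_le.1 hyx).le hy)
  have hIw : I₀ ⊆ Iio w := fun y hy => lt_of_le_of_lt (hII hy) hxw
  have hd : Iio w \ Iic x = Ioo x w := by
    ext y
    simp only [mem_sdiff, mem_Iio, mem_Iic, not_le, mem_Ioo]
    exact and_comm
  have hm := hmax (Iic x) (Iio w) (isLowerSet_Iic x) (isLowerSet_Iio w)
    (fun y hy => lt_of_le_of_lt hy hxw) (by rw [hd]; exact hWxw)
  -- restriction of rows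
  set ρ : ({g : M // g ∉ Iio w} → A) → ({g : M // g ∉ J₀} → A) :=
    fun f g => f ⟨g.1, fun hg => g.2 (hJJ hg)⟩ with hρ
  have hρr : ∀ y, ρ (lnc_row τ (Iio w) y) = lnc_row τ J₀ y := fun y => rfl
  have hρi : ρ '' (lnc_row τ (Iio w) '' I₀) = lnc_row τ J₀ '' I₀ := by
    rw [image_image]
    simp only [hρr]
  have hf1 := (hrow I₀ (Iio w) hI₀ hIw).1
  have hf2 := (hrow (Iic x) (Iio w) (isLowerSet_Iic x) (fun y hy => lt_of_le_of_lt hy hxw)).1
  have hsub : lnc_row τ (Iio w) '' I₀ ⊆ lnc_row τ (Iio w) '' Iic x := image_mono hII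
  have hc1 : (lnc_row τ J₀ '' I₀).ncard ≤ (lnc_row τ (Iio w) '' I₀).ncard := by
    rw [← hρi]; exact ncard_image_le hf1
  have hc2 : (lnc_row τ (Iio w) '' I₀).ncard ≤ (lnc_row τ (Iio w) '' Iic x).ncard :=
    ncard_le_ncard hsub hf2
  have heq := eq_of_subset_of_ncard_le hsub (hm.trans hc1) hf2
  have hinj : InjOn ρ (lnc_row τ (Iio w) '' I₀) := by
    apply injOn_of_ncard_image_eq _ hf1
    rw [hρi]
    omega
  -- a representative with the same row as `x`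
  obtain ⟨i, hi⟩ : ∃ i, lnc_row τ (Iio w) x = lnc_row τ (Iio w) (u i) := by
    have h1 : lnc_row τ (Iio w) x ∈ lnc_row τ (Iio w) '' I₀ := by
      rw [heq]; exact ⟨x, le_refl x, rfl⟩
    obtain ⟨y, hy, hyx⟩ := h1
    obtain ⟨i, hi⟩ := hu' y hy
    refine ⟨i, ?_⟩
    rw [← hyx]
    funext g
    exact lnc_row_eq hi fun hg => g.2 (hIw hg)
  have hvJ : ∀ j, v j ∉ J₀ := hv
  refine ⟨⟨i, fun j => lnc_row_eq hi fun hg => hvJ j (hJJ hg)⟩, fun i' hi' => ?_⟩
  have h2 : ρ (lnc_row τ (Iio w) (u i')) = ρ (lnc_row τ (Iio w) (u i)) := by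
    rw [hρr, hρr]
    funext g
    obtain ⟨j, hj⟩ := hv' g.1 g.2
    have a1 : τ (u i') g.1 = τ (u i') (v j) := congrFun hj ⟨u i', hIJ (hu i')⟩
    have a2 : τ (u i) g.1 = τ (u i) (v j) := congrFun hj ⟨u i, hIJ (hu i)⟩
    have a3 : τ x (v j) = τ (u i) (v j) := lnc_row_eq hi fun hg => hvJ j (hJJ hg)
    change τ (u i') g.1 = τ (u i) g.1
    rw [a1, a2, ← hi' j, a3]
  have h3 := hinj ⟨u i', hu i', rfl⟩ ⟨u i, hu i, rfl⟩ h2
  have h4 : lnc_row τ (Iio w) x = lnc_row τ (Iio w) (u i') := hi.trans h3.symm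
  exact lnc_row_eq h4 (by simp)

end LN

end Pool.Agent.Helper97.LO
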