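import Pool.Agent.VLin.LNb
import Pool.Agent.VLin.LNc

/-!
# VLIN, module LNd: a wild set all of whose bounded intervals are not wild
-/

set_option autoImplicit false
set_option linter.unusedSectionVars false
set_option linter.unusedVariables false

namespace Pool.Agent.Helper97.LO

open Set Pool.Agent.Helper5 Pool.Agent.Helper5.DU Pool.Agent.Helper6.Str
  Pool.Agent.Helper79.VC Pool.Agent.Helper97.VC Pool.Agent.Helper97.MD Pool.Agent.Helper6.VC

variable {L : FirstOrder.Language.{0, 0}} {M N P : Type} {A Γ : Type}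

section LN

variable [∀ n, IsEmpty (L.Functions n)] [∀ n, Countable (L.Relations n)] [LinearOrder M]
  {K : Set (L.Structure ℕ)} {δ : Ordinal.{0}} {S : L.Structure M} {τ : M → M → A} {rv : A → A}
  {k : ℕ}


/-- some index satisfying `p` -/
noncomputable def lndPick {n : ℕ} (p : Fin n → Prop) : Option (Fin n) := by
  classical exact if h : ∃ i, p i then some h.choose else none

theorem lndPick_some {n : ℕ} {p : Fin n → Prop} (h : ∃ i, p i) : ∃ i, lndPick p = some i ∧ p i := by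
  refine ⟨h.choose, ?_, h.choose_spec⟩
  unfold lndPick
  rw [dif_pos h]

/-- rows over a finite tuple -/
theorem lnd_row (hτ : Lbl S τ rv) {n' : ℕ} {J : Type} [Finite J] (v : J → M)
    (q : Fin n' → (J → A) → Prop) :
    DfbC S fun x => lndPick fun i => q i fun j => τ x (v j) := by
  classical
  have : Fintype J := Fintype.ofFinite J
  refine ⟨Finset.univ.image v, 0, Ordinal.omega_pos 1, fun c c' h => ?_⟩
  have e : (fun j => τ c (v j)) = fun j => τ c' (v j) := by
    funext j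
    refine hτ.inv _ _ _ _ (AtEq.anti ?_ h.atEq)
    rintro d (rfl | rfl)
    · exact mem_insert _ _
    · exact mem_insert_of_mem _ ⟨v j, by simp, rfl⟩
  show lndPick _ = lndPick _
  rw [e]

/-- the matrix -/
def lndM {n k' : ℕ} {C : Type} (a₀ : A) (u : Fin n → M) (e : Fin k' → M) (τ : M → M → A) :
    C × Option (Fin n) × Option (Fin k') → C × Option (Fin n) × Option (Fin k') → A
  | (_, some i, _), (_, _, some l) => τ (u i) (e l)
  | _, _ => a₀

theorem exists_scc (hL : Ar2 L) (hS : VSt K δ S) (hτ : Lbl S τ rv)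
    (hlay : ∀ I : Set M, IsLowerSet I → CutK τ I k) (h : Wd S τ univ) :
    ∃ W : Set M, Dfb S W ∧ (∃ k, CutK τ W k) ∧ ¬ TT S W ∧
      ∀ x ∈ W, ∀ w ∈ W, x < w → ¬ Wd S τ (Ioo x w) := by
  obtain ⟨I₀, J₀, n, k₁, u, v, e, hI, hJ, hIJ, hW, hδ, hβ⟩ := exists_max hτ.rev hlay h
  obtain ⟨Z, hZ, hZd, ⟨k₂, hZc⟩, hZt⟩ := hW
  obtain ⟨dat, hdat, hrow⟩ := exists_rowdat hτ hZd hZc
  have hZn : Z.Nonempty := by
    by_contra hn
    rw [not_nonempty_iff_eq_empty] at hn
    subst hn
    exact hZt (TT.of_countable countable_empty)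
  obtain ⟨z₀, hz₀⟩ := hZn
  -- the colours
  set β : M → Option (Fin n) := fun x => lndPick fun i => ∀ j, τ x (v j) = τ (u i) (v j) with hβd
  set ε : M → Option (Fin k) := fun w => lndPick fun l => ∀ i, τ (u i) w = τ (u i) (e l) with hεd
  have hβD : DfbC S β := lnd_row hτ v fun i f => ∀ j, f j = τ (u i) (v j)
  have hεD : DfbC S ε := by
    have h1 := lnd_row (n' := k) hτ u fun l f => ∀ i, rv (f i) = τ (u i) (e l)
    have h2 : ε = fun x => lndPick fun l => ∀ i, rv (τ x (u i)) = τ (u i) (e l) := by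
      funext x
      simp only [hεd, hτ.rev x]
    rw [h2]
    exact h1
  set C : M → Option (Fin k₂) × Option (Fin n) × Option (Fin k) := fun x => (dat x, β x, ε x)
    with hC
  have hCD : DfbC S C := hdat.prod (hβD.prod hεD)
  set m := lndM (C := Option (Fin k₂)) (τ z₀ z₀) u e τ with hm
  have hrow' : ∀ g, g ∉ Z → ∀ z ∈ Z, ∀ z' ∈ Z, C z = C z' → τ z g = τ z' g := by
    intro g hg z hz z' hz' h
    exact hrow g hg z hz z' hz' (congrArg Prod.fst h)
  have key : ∃ x ∈ Z, ¬ TT S {y | y ∈ PS.ClX τ C m Z x ∧ x ∈ PS.ClX τ C m Z y} := by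
    by_contra hn
    push Not at hn
    exact hZt (lq_piece hL hS hτ hZd hCD hrow' hn)
  obtain ⟨x₀, hx₀, hx₀t⟩ := key
  have hcl := dfb2_clX (m := m) hτ hCD hZd
  refine ⟨_, (hcl.fiber x₀).inter (hcl.swap.fiber x₀), cutK_sccX hτ.rev hZc hrow' hx₀, hx₀t, ?_⟩
  rintro x ⟨_, hx2⟩ w ⟨hw1, _⟩ hxw hwild
  -- the path from `x` to `w`
  have hpath : Relation.ReflTransGen (fun a b => a ∈ Z ∧ b ∈ Z ∧ PS.Arr τ C m a b) x w :=
    Relation.ReflTransGen.trans hx2 hw1
  have hne : ∀ Y : Set M, Wd S τ Y → Y.Nonempty := by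
    rintro Y ⟨Z', hZ', _, _, hn⟩
    by_contra hY
    rw [not_nonempty_iff_eq_empty] at hY
    subst hY
    exact hn (TT.of_countable (countable_empty.mono hZ'))
  have hcover : ∀ q, Relation.ReflTransGen (fun a b => a ∈ Z ∧ b ∈ Z ∧ PS.Arr τ C m a b) x q →
      ∀ Y : Set M, Wd S τ Y → (∀ y ∈ Y, x < y) →
      ∃ Y' ⊆ Y, Wd S τ Y' ∧ ∀ y ∈ Y', q < y := by
    intro q hq
    clear hw1 hxw hwild hpath
    induction hq with
    | refl => exact fun Y hY hxY => ⟨Y, subset_rfl, hY, hxY⟩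
    | @tail p q hxp hpq ih =>
      intro Y hY hxY
      obtain ⟨Y1, hY1, hY1w, hpY⟩ := ih Y hY hxY
      obtain ⟨Y2, hY2, hY2w, hF⟩ := wd_cover hL hS hτ hlay hY1w {q}
      rcases hF q (Finset.mem_singleton_self q) with h1 | h1
      · exfalso
        obtain ⟨hpZ, hqZ, _, hne'⟩ := hpq
        obtain ⟨y, hy⟩ := hne Y2 hY2w
        have hpq' : p < q := (hpY y (hY2 hy)).trans (h1 y hy)
        obtain ⟨h2, h3⟩ := hβ p (hZ hpZ) q (hZ hqZ) hpq'
          (hY2w.mono fun z hz => ⟨hpY z (hY2 hz), h1 z hz⟩)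
        obtain ⟨i, hi1, hi2⟩ := lndPick_some h2
        obtain ⟨l, hl1, hl2⟩ := lndPick_some (hδ q (hZ hqZ).2)
        apply hne'
        have e1 : β p = some i := hi1
        have e2 : ε q = some l := hl1
        show τ p q = m (dat p, β p, ε p) (dat q, β q, ε q)
        rw [e1, e2, h3 i hi2, hl2 i]
        rfl
      · exact ⟨Y2, hY2.trans hY1, hY2w, h1⟩
  obtain ⟨Y', hY', hY'w, hq⟩ := hcover w hpath _ hwild fun y hy => hy.1
  obtain ⟨y, hy⟩ := hne Y' hY'w
  exact lt_asymm (hq y hy) (hY' hy).2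

end LN

end Pool.Agent.Helper97.LO
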